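import Pool.Agent.DV97.Seq

/-!
# Active holes

`W` is a component with holes which is mapped one-to-one onto `f '' W`.  A hole of `W`, with boundary point `x`,
is active if every point has a preimage in it.  Some hole is active; a hole which is not active is
mapped bijectively to a hole of `f '' W`.
-/

open Polynomial

noncomputable section

namespace DV97

open Pool.Agent.FIC FS16 FS31

universe u

variable {K k : Type u} [NontriviallyNormedField K] [IsUltrametricDist K] [IsAlgClosed K] [Field k]
  [IsAlgClosed k]

open Classical in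
/-- a chart at the point (arbitrary if there is none) -/
def ch (x : BerkP K) : Chart K := if h : ∃ c : Chart K, zpt c = x then h.choose else
  ⟨0, 1, one_ne_zero, false⟩

omit [IsAlgClosed K] in
theorem zpt_ch [IsAlgClosed K] {x : BerkP K} (h : ∃ c : Chart K, zpt c = x) : zpt (ch x) = x := by
  rw [ch, dif_pos h]
  exact h.choose_spec

/-- the hole of `W` at the boundary point `x` (its points of type I) -/
def Hl (R : Residue K k) (W : Set (BerkP K)) (x : BerkP K) : Set (OnePoint K) :=
  {z | dirR R ((ch x).to z) ≠ dirR R ((ch x).to (pick W))}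

/-- the component `W` is mapped one-to-one, with its boundary -/
structure Reg (f : RatMap K) (W : Set (BerkP K)) : Prop where
  hol : HasHoles W
  hol' : HasHoles (f.map '' W)
  one : OneToOneOn f W
  hbd : f.map '' bd W = bd (f.map '' W)
  inj : Set.InjOn f.map (bd W)
  ne : W.Nonempty

variable {f : RatMap K} {W : Set (BerkP K)}

theorem Reg.pick_mem (R : Residue K k) (hW : Reg f W) : toP (pick W) ∈ W :=
  FS31.pick_mem (isOpen_of_hasHoles R hW.hol) hW.ne

theorem Reg.pick_mem' (R : Residue K k) (hW : Reg f W) : toP (pick (f.map '' W)) ∈ f.map '' W :=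
  FS31.pick_mem (isOpen_of_hasHoles R hW.hol') (hW.ne.image _)

theorem Reg.map_bd (hW : Reg f W) {x : BerkP K} (hx : x ∈ bd W) : f.map x ∈ bd (f.map '' W) := by
  rw [← hW.hbd]
  exact ⟨x, hx, rfl⟩

/-- the direction of the component is mapped to the direction of its image, with multiplicity one -/
theorem Reg.dir (R : Residue K k) (hd : 1 ≤ f.degree) (hW : Reg f W) {x : BerkP K} (hx : x ∈ bd W)
    {c c' : Chart K} (hc : zpt c = x) (hc' : zpt c' = f.map x) {h : k[X]} {T : RM k}
    (hg : GoodRed R ((toRM f).cj c c') h T) :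
    T.map (dirR R (c.to (pick W))) = dirR R (c'.to (pick (f.map '' W))) ∧
      T.mult (dirR R (c.to (pick W))) = 1 := by
  have h1 : T.map (dirR R (c.to (pick W))) = dirR R (c'.to (pick (f.map '' W))) :=
    map_dir R hd hW.hol hW.hol' (by rw [hc]; exact hx) (by rw [hc, hc'])
      (by rw [hc']; exact hW.map_bd hx) (hW.pick_mem R) (hW.pick_mem' R) hg
  refine ⟨h1, ?_⟩
  -- another boundary point
  obtain ⟨x', hx', hne⟩ : ∃ x' ∈ bd W, x' ≠ x := by
    obtain ⟨y, hy, y', hy', hyy⟩ := exists_two_bd R hW.hol
    by_cases h : y = x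
    · exact ⟨y', hy', fun h' => hyy (h.trans h'.symm)⟩
    · exact ⟨y, hy, h⟩
  obtain ⟨c₂, hc₂⟩ := exists_chart_bd R hW.hol hx'
  obtain ⟨c₂', hc₂'⟩ := exists_chart_bd R hW.hol' (hW.map_bd hx')
  obtain ⟨h₂, T₂, hg₂⟩ := exists_goodRed R f (c := c₂) (c' := c₂') (by rw [hc₂, hc₂'])
  obtain ⟨ι, inst, S, y, hy, hS⟩ := exists_step R hd hW.hol hW.hol' hW.one hW.hbd hW.inj
    (hW.pick_mem R) (hW.pick_mem' R) (x := fun b => bif b then x else x')
    (fun b => by cases b <;> assumption) (by simpa using hne.symm)
    (fun b => bif b then c else c₂) (fun b => bif b then c' else c₂')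
    (fun b => by cases b <;> assumption) (fun b => by cases b <;> assumption)
    (fun b => bif b then T else T₂) (fun b => bif b then h else h₂)
    (fun b => by cases b <;> assumption)
  obtain ⟨-, -, h3, -, h5, -⟩ := hS true
  have h6 := S.mult_one (y true)
  rw [h3, h5] at h6
  exact h6

/-- the hole at `x` is active -/
def Act (R : Residue K k) (f : RatMap K) (W : Set (BerkP K)) (x : BerkP K) : Prop :=
  ∀ b : OnePoint K, ∃ z ∈ Hl R W x, (toRM f).map z = b

/-- an element outside of a filter -/
theorem exists_not_of_card {α : Type*} (s : Multiset α) (p : α → Prop) [DecidablePred p]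
    (h : Multiset.card (s.filter p) < Multiset.card s) : ∃ z ∈ s, ¬ p z := by
  by_contra hcon
  push Not at hcon
  rw [Multiset.filter_eq_self.2 hcon] at h
  exact lt_irrefl _ h

/-- an inactive hole -/
structure Inact (R : Residue K k) (f : RatMap K) (W : Set (BerkP K)) (x : BerkP K) : Prop where
  /-- the hole is mapped onto the hole of the image -/
  lift : ∀ b ∈ Hl R (f.map '' W) (f.map x), ∃ z ∈ Hl R W x, (toRM f).map z = b
  /-- the points of the image of the component have no preimages in the hole -/
  fib : ∀ z, (toRM f).map z = pick (f.map '' W) →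
    dirR R ((ch x).to z) = dirR R ((ch x).to (pick W))
  /-- the reduction has degree one and the direction of `W` is the only one of positive surplus -/
  red : ∀ (h : k[X]) (T : RM k), GoodRed R ((toRM f).cj (ch x) (ch (f.map x))) h T →
    T.deg = 1 ∧ ∀ u, spl ((toRM f).cj (ch x) (ch (f.map x))) h T u ≠ 0 →
      u = dirR R ((ch x).to (pick W))

theorem act_or_inact (R : Residue K k) (hd : 1 ≤ f.degree) (hW : Reg f W) {x : BerkP K}
    (hx : x ∈ bd W) : Act R f W x ∨ Inact R f W x := by
  classical
  have hc : zpt (ch x) = x := zpt_ch (exists_chart_bd R hW.hol hx)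
  have hc' : zpt (ch (f.map x)) = f.map x := zpt_ch (exists_chart_bd R hW.hol' (hW.map_bd hx))
  set c := ch x with hcdef
  set c' := ch (f.map x) with hc'def
  set v := dirR R (c.to (pick W)) with hv
  set v' := dirR R (c'.to (pick (f.map '' W))) with hv'
  obtain ⟨h, T, hg⟩ := exists_goodRed R f (c := c) (c' := c') (by rw [hc, hc'])
  obtain ⟨hTv, hm⟩ := hW.dir R hd hx hc hc' hg
  rw [← hv] at hTv hm
  rw [← hv'] at hTv
  have hcard : ∀ b, Multiset.card ((toRM f).fibM b) = f.degree := fun b =>
    (toRM f).card_fibM hd b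
  have hle : ∀ b, Multiset.card (((toRM f).fibM b).filter fun z => dirR R (c.to z) = v) ≤ f.degree :=
    fun b => (Multiset.card_le_card (Multiset.filter_le _ _)).trans (hcard b).le
  have hcount := fun b => same_count hg b v
  rw [hTv, hm] at hcount
  have hb₀ := hcount (pick (f.map '' W))
  rw [← hv', if_pos rfl] at hb₀
  have hle₀ := hle (pick (f.map '' W))
  rw [hb₀] at hle₀
  rcases hle₀.lt_or_eq with hlt | heq
  · left
    intro b
    obtain ⟨z, hz, hz'⟩ := exists_not_of_card ((toRM f).fibM b) (fun z => dirR R (c.to z) = v) (by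
      rw [hcount b, hcard]
      split_ifs <;> omega)
    exact ⟨z, hz', ((toRM f).mem_fibM hd b z).1 hz⟩
  · right
    have hfib : ∀ z ∈ (toRM f).fibM (pick (f.map '' W)), dirR R (c.to z) = v := by
      intro z hz
      by_contra hcon
      have h1 : Multiset.card (((toRM f).fibM (pick (f.map '' W))).filter
          fun z => dirR R (c.to z) = v) < Multiset.card ((toRM f).fibM (pick (f.map '' W))) := by
        apply Multiset.card_lt_card
        refine lt_of_le_of_ne (Multiset.filter_le _ _) fun h => ?_
        exact hcon (Multiset.filter_eq_self.1 h z hz)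
      rw [hb₀, hcard, heq] at h1
      exact lt_irrefl _ h1
    refine ⟨?_, ?_, ?_⟩
    · intro b hb
      obtain ⟨z, hz, hz'⟩ := exists_not_of_card ((toRM f).fibM b) (fun z => dirR R (c.to z) = v) (by
        rw [hcount b, hcard, if_neg (fun h => hb h.symm)]
        omega)
      exact ⟨z, hz', ((toRM f).mem_fibM hd b z).1 hz⟩
    · intro z hz
      exact hfib z (((toRM f).mem_fibM hd _ z).2 hz)
    · intro h₁ T₁ hg₁
      obtain ⟨hTv₁, hm₁⟩ := hW.dir R hd hx hc hc' hg₁
      rw [← hv] at hTv₁ hm₁
      rw [← hv'] at hTv₁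
      have hother : ∀ u, u ≠ v → spl ((toRM f).cj c c') h₁ T₁ u = 0 ∧ T₁.map u ≠ v' := by
        intro u hu
        have h2 := same_count hg₁ (pick (f.map '' W)) u
        have h3 : Multiset.card (((toRM f).fibM (pick (f.map '' W))).filter
            fun z => dirR R (c.to z) = u) = 0 := by
          rw [Multiset.card_eq_zero, Multiset.filter_eq_nil]
          intro z hz h4
          exact hu (h4.symm.trans (hfib z hz))
        rw [h3, ← hv'] at h2
        refine ⟨(Nat.add_eq_zero_iff.1 h2.symm).1, fun h4 => ?_⟩
        rw [if_pos h4] at h2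
        have h5 := T₁.one_le_mult hg₁.2.1 u
        omega
      refine ⟨le_antisymm ?_ hg₁.2.1, fun u hu => ?_⟩
      · by_contra hcon
        obtain ⟨z', hz', hz''⟩ := RM.exists_ne_of_mult T₁ (by omega) hm₁
        exact (hother z' hz').2 (hz''.trans hTv₁)
      · by_contra hcon
        exact hu (hother u hcon).1

/-- some hole is active -/
theorem exists_act (R : Residue K k) (hd : 2 ≤ f.degree) (hW : Reg f W) : ∃ x ∈ bd W, Act R f W x := by
  classical
  by_contra hcon
  push Not at hcon
  have hina : ∀ x ∈ bd W, Inact R f W x := fun x hx =>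
    (act_or_inact R (by omega) hW hx).resolve_left (hcon x hx)
  have h1 : ∀ z ∈ (toRM f).fibM (pick (f.map '' W)), toP z ∈ W := by
    intro z hz
    rw [mem_iff R hW.hol (hW.pick_mem R) (c := ch)
      (fun x hx => zpt_ch (exists_chart_bd R hW.hol hx))]
    intro x hx
    exact (hina x hx).fib z (((toRM f).mem_fibM (by rw [toRM_deg]; omega) _ z).1 hz)
  have h2 := hW.one.2 (pick (f.map '' W)) (hW.pick_mem' R)
  rw [← card_filter_fibM, Multiset.filter_eq_self.2 h1, (toRM f).card_fibM (by rw [toRM_deg]; omega),
    toRM_deg] at h2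
  omega

end DV97
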