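import Pool.Agent.DV97.Act

/-!
# A cycle of components: two holes which contain points of a finite set

`SS f y₀ y₁` is the (finite) set of the preimages and second preimages of `y₀` and `y₁`.  In every cycle of
components with holes there is a component with two different holes each of which contains two points
of `SS f y₀ y₁`.
-/

open Polynomial

noncomputable section

namespace DV97

open Pool.Agent.FIC FS16 FS31

universe u

variable {K k : Type u} [NontriviallyNormedField K] [IsUltrametricDist K] [IsAlgClosed K] [Field k]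
  [IsAlgClosed k]

/-- the data of a cycle of components -/
structure CycD (f : RatMap K) (U : ℕ → Set (BerkP K)) (P : ℕ) : Prop where
  succ : ∀ l, U (l + 1) = f.map '' U l
  reg : ∀ l, Reg f (U l)
  comp : ∀ l, IsFatouComponent f (U l)
  pos : 1 ≤ P
  per : ∀ l, U (l + P) = U l
  perbd : ∀ l, ∀ x ∈ bd (U l), f.map^[P] x = x

theorem exists_cyc (R : Residue K k) {f : RatMap K} (hd : 1 ≤ f.degree) {C : Set (Set (BerkP K))}
    (hC : C ∈ multiCycles f) : ∃ (U : ℕ → Set (BerkP K)) (P : ℕ), CycD f U P ∧ ∀ l, U l ∈ C := by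
  classical
  obtain ⟨U₀, hU₀⟩ := hC.1
  obtain ⟨U, hUdef⟩ : ∃ U : ℕ → Set (BerkP K), ∀ l, U l = f.map^[l] '' U₀ :=
    ⟨fun l => f.map^[l] '' U₀, fun _ => rfl⟩
  have hUC : ∀ l, U l ∈ C := fun l => by
    rw [hU₀, hUdef]
    exact ⟨l, rfl⟩
  have hUs : ∀ l, U (l + 1) = f.map '' U l := fun l => by
    rw [hUdef, hUdef, Function.iterate_succ', Set.image_comp]
  have hInd : ∀ l, IsIndifferent f (U l) := fun l => (hC.2 _ (hUC l)).1
  have hHol : ∀ l, HasHoles (U l) := fun l => (hC.2 _ (hUC l)).2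
  obtain ⟨n, hn, hnU⟩ : ∃ n, 1 ≤ n ∧ f.map^[n] '' U₀ = U₀ := by
    obtain ⟨_, n, hn, h, _⟩ := hInd 0
    refine ⟨n, hn, ?_⟩
    rw [hUdef] at h
    simpa using h
  have hUper1 : ∀ l, U (l + n) = U l := fun l => by
    rw [hUdef, hUdef, Function.iterate_add, Set.image_comp, hnU]
  have hUper : ∀ m l, U (l + n * m) = U l := by
    intro m
    induction m with
    | zero => intro l; rfl
    | succ m ih => intro l; rw [Nat.mul_succ, ← add_assoc, hUper1, ih]
  have hbd : ∀ l, f.map '' bd (U l) = bd (U (l + 1)) := by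
    intro l
    rw [hUs]
    exact image_bd hd (hInd l).1 (by rw [← hUs]; exact (hInd (l + 1)).1)
  obtain ⟨B, hBdef⟩ : ∃ B : Set (BerkP K), B = ⋃ l, bd (U l) := ⟨_, rfl⟩
  have hBsub : ∀ l, bd (U l) ⊆ B := fun l => by
    rw [hBdef]
    exact Set.subset_iUnion (fun l => bd (U l)) l
  have hBfin : B.Finite := by
    have h1 : B ⊆ ⋃ l : Fin n, bd (U l) := by
      rw [hBdef]
      refine Set.iUnion_subset fun l => ?_
      have h2 : U l = U (l % n) := by
        conv_lhs => rw [← Nat.mod_add_div l n]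
        exact hUper _ _
      rw [h2]
      exact Set.subset_iUnion (fun l : Fin n => bd (U l)) ⟨l % n, Nat.mod_lt _ hn⟩
    exact (Set.finite_iUnion fun l => bd_finite R (hHol _)).subset h1
  have hBim : f.map '' B = B := by
    apply Set.Subset.antisymm
    · rintro _ ⟨x, hx, rfl⟩
      rw [hBdef] at hx
      simp only [Set.mem_iUnion] at hx
      obtain ⟨l, hx⟩ := hx
      apply hBsub (l + 1)
      rw [← hbd]
      exact ⟨x, hx, rfl⟩
    · intro x hx
      rw [hBdef] at hx
      simp only [Set.mem_iUnion] at hx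
      obtain ⟨l, hx⟩ := hx
      have h1 : U l = U (l + (n - 1) + 1) := by
        rw [show l + (n - 1) + 1 = l + n by omega, hUper1]
      rw [h1, ← hbd] at hx
      obtain ⟨y, hy, rfl⟩ := hx
      exact ⟨y, hBsub _ hy, rfl⟩
  have hBinj : Set.InjOn f.map B := injOn_of_image_eq hBfin hBim
  have hBmap : ∀ x ∈ B, f.map x ∈ B := fun x hx => by
    rw [← hBim]
    exact ⟨x, hx, rfl⟩
  have : Finite B := hBfin.to_subtype
  let g : B → B := fun x => ⟨f.map x.1, hBmap x.1 x.2⟩
  have hg : Function.Injective g := by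
    intro x y h
    apply Subtype.ext
    exact hBinj x.2 y.2 (congrArg Subtype.val h)
  let σ : Equiv.Perm B := Equiv.ofBijective g (Finite.injective_iff_bijective.1 hg)
  have hσ : ∀ (m : ℕ) (x : B), (((σ ^ m) x : B) : BerkP K) = f.map^[m] (x : BerkP K) := by
    intro m x
    induction m with
    | zero => rfl
    | succ m ih =>
      rw [pow_succ', Equiv.Perm.mul_apply, Function.iterate_succ_apply', ← ih]
      rfl
  have hσfin : IsOfFinOrder σ := isOfFinOrder_of_finite σ
  have hN : 0 < orderOf σ := hσfin.orderOf_pos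
  have hBper : ∀ x ∈ B, f.map^[n * orderOf σ] x = x := by
    intro x hx
    have h1 := hσ (n * orderOf σ) ⟨x, hx⟩
    rw [mul_comm, pow_mul, pow_orderOf_eq_one, one_pow] at h1
    rw [mul_comm]
    exact h1.symm
  refine ⟨U, n * orderOf σ, ⟨hUs, fun l => ⟨hHol l, ?_, ?_, ?_, hBinj.mono (hBsub l),
    nonempty_comp (hInd l).1⟩, fun l => (hInd l).1, Nat.mul_pos hn hN, hUper _, fun l x hx =>
      hBper x (hBsub l hx)⟩, hUC⟩
  · rw [← hUs]
    exact hHol (l + 1)
  · obtain ⟨_, m, hm, _, hone⟩ := hInd l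
    have := hone 0 (by omega)
    simpa using this
  · rw [hbd, hUs]

variable {f : RatMap K} {U : ℕ → Set (BerkP K)} {P : ℕ}

theorem CycD.mem_bd (D : CycD f U P) {l : ℕ} {x : BerkP K} (hx : x ∈ bd (U l)) (j : ℕ) :
    f.map^[j] x ∈ bd (U (l + j)) := by
  induction j with
  | zero => exact hx
  | succ j ih =>
    rw [Function.iterate_succ_apply', ← add_assoc, D.succ]
    exact (D.reg (l + j)).map_bd ih

theorem CycD.iter_per (D : CycD f U P) {l : ℕ} {x : BerkP K} (hx : x ∈ bd (U l)) (j : ℕ) :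
    f.map^[j + P] x = f.map^[j] x := by
  rw [Function.iterate_add_apply, D.perbd l x hx]

theorem CycD.notMem_fatou (D : CycD f U P) {l : ℕ} {x : BerkP K} (hx : x ∈ bd (U l)) :
    x ∉ fatou f := FS31.notMem_fatou (D.comp l) hx.1 hx.2

theorem CycD.injOn_iterate (D : CycD f U P) {l : ℕ} {x x' : BerkP K} (hx : x ∈ bd (U l))
    (hx' : x' ∈ bd (U l)) {j : ℕ} (h : f.map^[j] x = f.map^[j] x') : x = x' := by
  induction j with
  | zero => exact h
  | succ j ih =>
    rw [Function.iterate_succ_apply', Function.iterate_succ_apply'] at h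
    exact ih ((D.reg (l + j)).inj (D.mem_bd hx j) (D.mem_bd hx' j) h)

/-- every hole becomes active -/
theorem CycD.exists_act (R : Residue K k) (hd : 2 ≤ f.degree) (D : CycD f U P) {l : ℕ}
    {x : BerkP K} (hx : x ∈ bd (U l)) : ∃ j, Act R f (U (l + j)) (f.map^[j] x) := by
  by_contra hcon
  push Not at hcon
  have hina : ∀ j, Inact R f (U (l + j)) (f.map^[j] x) := fun j =>
    (act_or_inact R (by omega) (D.reg _) (D.mem_bd hx j)).resolve_left (hcon j)
  have hch : ∀ j, zpt (ch (f.map^[j] x)) = f.map^[j] x := fun j =>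
    zpt_ch (exists_chart_bd R (D.reg _).hol (D.mem_bd hx j))
  refine julia_seq R hd D.pos (c := fun j => ch (f.map^[j] x)) (fun j => ?_) (fun j => ?_)
    (fun j => ?_) (B := fun j => {dirR R ((ch (f.map^[j] x)).to (pick (U (l + j))))})
    (fun j => ?_) (fun j => Set.finite_singleton _) (fun j h T hg => ?_)
  · change ch (f.map^[j + P] x) = ch (f.map^[j] x)
    rw [D.iter_per hx]
  · change f.map (zpt (ch (f.map^[j] x))) = zpt (ch (f.map^[j + 1] x))
    rw [hch, hch, Function.iterate_succ_apply']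
  · change zpt (ch (f.map^[j] x)) ∉ fatou f
    rw [hch]
    exact D.notMem_fatou (D.mem_bd hx j)
  · change {dirR R ((ch (f.map^[j + P] x)).to (pick (U (l + (j + P)))))} =
      ({dirR R ((ch (f.map^[j] x)).to (pick (U (l + j))))} : Set (OnePoint k))
    rw [D.iter_per hx, ← add_assoc, D.per]
  · change GoodRed R ((toRM f).cj (ch (f.map^[j] x)) (ch (f.map^[j + 1] x))) h T at hg
    change T.deg = 1 ∧ (∀ u, spl ((toRM f).cj (ch (f.map^[j] x)) (ch (f.map^[j + 1] x))) h T u ≠ 0 →
      u = dirR R ((ch (f.map^[j] x)).to (pick (U (l + j))))) ∧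
      ∀ u ∈ ({dirR R ((ch (f.map^[j] x)).to (pick (U (l + j))))} : Set (OnePoint k)),
        T.map u ∈ ({dirR R ((ch (f.map^[j + 1] x)).to (pick (U (l + (j + 1)))))} :
          Set (OnePoint k))
    have hch1 := hch (j + 1)
    rw [Function.iterate_succ_apply'] at hg hch1 ⊢
    obtain ⟨h1, h2⟩ := (hina j).red h T hg
    refine ⟨h1, h2, ?_⟩
    intro u hu
    rw [Set.mem_singleton_iff] at hu ⊢
    rw [hu, ← add_assoc, D.succ]
    exact ((D.reg (l + j)).dir R (by omega) (D.mem_bd hx j) (hch j) hch1 hg).1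

/-- preimages and second preimages of two points -/
def SS (f : RatMap K) (y₀ y₁ : OnePoint K) : Set (OnePoint K) :=
  {z | (toRM f).map z = y₀ ∨ (toRM f).map z = y₁ ∨ (toRM f).map ((toRM f).map z) = y₀ ∨
    (toRM f).map ((toRM f).map z) = y₁}

/-- two points of a set in the hole -/
def Rich (R : Residue K k) (S : Set (OnePoint K)) (W : Set (BerkP K)) (x : BerkP K) : Prop :=
  ∃ z₀ ∈ Hl R W x, ∃ z₁ ∈ Hl R W x, z₀ ≠ z₁ ∧ z₀ ∈ S ∧ z₁ ∈ S

theorem rich_of_act {R : Residue K k} {W : Set (BerkP K)} {x : BerkP K} (h : Act R f W x)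
    {y₀ y₁ : OnePoint K} (hy : y₀ ≠ y₁) : Rich R (SS f y₀ y₁) W x := by
  obtain ⟨z₀, h0, h0'⟩ := h y₀
  obtain ⟨z₁, h1, h1'⟩ := h y₁
  refine ⟨z₀, h0, z₁, h1, fun h2 => hy ?_, Or.inl h0', Or.inr (Or.inl h1')⟩
  rw [← h0', ← h1', h2]

theorem rich_of_lift {R : Residue K k} {W : Set (BerkP K)} {x : BerkP K}
    (h : Inact R f W x) (h' : Act R f (f.map '' W) (f.map x)) {y₀ y₁ : OnePoint K} (hy : y₀ ≠ y₁) :
    Rich R (SS f y₀ y₁) W x := by
  obtain ⟨z₀, h0, h0'⟩ := h' y₀
  obtain ⟨z₁, h1, h1'⟩ := h' y₁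
  obtain ⟨w₀, g0, g0'⟩ := h.lift z₀ h0
  obtain ⟨w₁, g1, g1'⟩ := h.lift z₁ h1
  refine ⟨w₀, g0, w₁, g1, fun h2 => hy ?_, Or.inr (Or.inr (Or.inl ?_)), Or.inr (Or.inr (Or.inr ?_))⟩
  · rw [← h0', ← h1', ← g0', ← g1', h2]
  · rw [g0', h0']
  · rw [g1', h1']

/-- two different holes with two points each -/
theorem CycD.exists_rich (R : Residue K k) (hd : 2 ≤ f.degree) (D : CycD f U P) {y₀ y₁ : OnePoint K}
    (hy : y₀ ≠ y₁) : ∃ l, ∃ x ∈ bd (U l), ∃ x' ∈ bd (U l), x ≠ x' ∧
      Rich R (SS f y₀ y₁) (U l) x ∧ Rich R (SS f y₀ y₁) (U l) x' := by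
  by_cases htwo : ∃ l, ∃ x ∈ bd (U l), ∃ x' ∈ bd (U l), x ≠ x' ∧ Act R f (U l) x ∧ Act R f (U l) x'
  · obtain ⟨l, x, hx, x', hx', hne, h1, h2⟩ := htwo
    exact ⟨l, x, hx, x', hx', hne, rich_of_act h1 hy, rich_of_act h2 hy⟩
  · push Not at htwo
    have huniq : ∀ l, ∀ x ∈ bd (U l), ∀ x' ∈ bd (U l), Act R f (U l) x → Act R f (U l) x' → x = x' := by
      intro l x hx x' hx' h1 h2
      by_contra h3
      exact htwo l x hx x' hx' h3 h1 h2
    choose a ha hact using fun l => DV97.exists_act R hd (D.reg l)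
    obtain ⟨l, hl⟩ : ∃ l, f.map (a l) ≠ a (l + 1) := by
      by_contra hcon
      push Not at hcon
      have hit : ∀ j, f.map^[j] (a 0) = a j := by
        intro j
        induction j with
        | zero => rfl
        | succ j ih => rw [Function.iterate_succ_apply', ih, hcon]
      obtain ⟨x', hx', hne⟩ : ∃ x' ∈ bd (U 0), x' ≠ a 0 := by
        obtain ⟨y, hy, y', hy', hyy⟩ := exists_two_bd R (D.reg 0).hol
        by_cases h : y = a 0
        · exact ⟨y', hy', fun h' => hyy (h.trans h'.symm)⟩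
        · exact ⟨y, hy, h⟩
      obtain ⟨j, hj⟩ := D.exists_act R hd hx'
      have h1 : f.map^[j] x' = a (0 + j) :=
        huniq (0 + j) _ (D.mem_bd hx' j) _ (ha _) hj (hact _)
      rw [zero_add, ← hit j] at h1
      exact hne (D.injOn_iterate hx' (ha 0) h1)
    have h1 : a (l + 1) ∈ f.map '' bd (U l) := by
      rw [(D.reg l).hbd, ← D.succ]
      exact ha (l + 1)
    obtain ⟨x', hx', hx''⟩ := h1
    have hne : x' ≠ a l := by
      rintro rfl
      exact hl hx''
    have hina : Inact R f (U l) x' := by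
      refine (act_or_inact R (by omega) (D.reg l) hx').resolve_left fun h => hne ?_
      exact huniq l _ hx' _ (ha l) h (hact l)
    refine ⟨l, a l, ha l, x', hx', hne.symm, rich_of_act (hact l) hy, rich_of_lift hina ?_ hy⟩
    rw [← D.succ, hx'']
    exact hact (l + 1)

end DV97
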