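import Mathlib

/-!
# Finite extensions of discretely valued fields: the lattice of the radii

`K` is a field with an ultrametric norm, `F` a subfield such that all norms of nonzero elements of `F`
are integral powers of a number `c > 1`.
-/

open Polynomial

noncomputable section

namespace DV97

universe u

variable {K : Type u} [NormedField K] [IsUltrametricDist K]

/-- all norms of nonzero elements of the subfield are integral powers of one number (discrete or trivial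
valuation) -/
def IsDisc (F : Subfield K) : Prop := ∃ c : ℝ, 1 < c ∧ ∀ x ∈ F, x ≠ 0 → ∃ n : ℤ, ‖x‖ = c ^ n

theorem um_sum_lt {ι : Type*} (s : Finset ι) (u : ι → K) {B : ℝ} (hB : 0 < B)
    (h : ∀ i ∈ s, ‖u i‖ < B) : ‖∑ i ∈ s, u i‖ < B := by
  classical
  induction s using Finset.induction_on with
  | empty => simpa using hB
  | insert a s ha ih =>
    rw [Finset.sum_insert ha]
    refine lt_of_le_of_lt (IsUltrametricDist.norm_add_le_max _ _) (max_lt ?_ ?_)
    · exact h a (Finset.mem_insert_self a s)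
    · exact ih fun i hi => h i (Finset.mem_insert_of_mem hi)

/-- in a vanishing sum the largest norm occurs twice -/
theorem exists_pair_of_sum_eq_zero {ι : Type*} (s : Finset ι) (u : ι → K)
    (h0 : ∑ i ∈ s, u i = 0) (hne : ∃ i ∈ s, u i ≠ 0) :
    ∃ i ∈ s, ∃ j ∈ s, i ≠ j ∧ u i ≠ 0 ∧ ‖u i‖ = ‖u j‖ := by
  classical
  obtain ⟨i₀, hi₀, hi₀'⟩ := hne
  obtain ⟨i, hi, hmax⟩ := s.exists_max_image (fun i => ‖u i‖) ⟨i₀, hi₀⟩
  have hpos : 0 < ‖u i‖ := (norm_pos_iff.2 hi₀').trans_le (hmax i₀ hi₀)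
  by_contra hcon
  push Not at hcon
  have h1 : ‖∑ j ∈ s.erase i, u j‖ < ‖u i‖ := by
    refine um_sum_lt _ _ hpos fun j hj => ?_
    rw [Finset.mem_erase] at hj
    exact lt_of_le_of_ne (hmax j hj.2)
      fun h => hcon i hi j hj.2 hj.1.symm (norm_pos_iff.1 hpos) h.symm
  have h2 : u i + ∑ j ∈ s.erase i, u j = 0 := by rw [Finset.add_sum_erase s u hi, h0]
  have h3 : ‖u i + ∑ j ∈ s.erase i, u j‖ = ‖u i‖ := by
    rw [IsUltrametricDist.norm_add_eq_max_of_norm_ne_norm h1.ne', max_eq_left h1.le]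
  rw [h2, norm_zero] at h3
  exact hpos.ne h3

/-- elements of degree at most `D` over a discretely valued field -/
theorem norm_pow_of_algebraic {F : Subfield K} {c : ℝ} (hc : 1 < c)
    (hF : ∀ x ∈ F, x ≠ 0 → ∃ n : ℤ, ‖x‖ = c ^ n) {D : ℕ} {x : K} (hx : x ≠ 0) {g : F[X]}
    (hg : g ≠ 0) (hgD : g.natDegree ≤ D) (hgx : aeval x g = 0) :
    ∃ n : ℤ, ‖x‖ ^ D.factorial = c ^ n := by
  have hc0 : c ≠ 0 := (zero_lt_one.trans hc).ne'
  have hx0 : 0 < ‖x‖ := norm_pos_iff.2 hx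
  have h1 : ∑ i ∈ Finset.range (g.natDegree + 1), (g.coeff i : K) * x ^ i = 0 := by
    rw [aeval_eq_sum_range] at hgx
    rw [← hgx]
    refine Finset.sum_congr rfl fun i _ => ?_
    rw [Algebra.smul_def]
    rfl
  have hlead : (g.coeff g.natDegree : K) ≠ 0 := by
    rw [coeff_natDegree]
    intro h
    exact hg (leadingCoeff_eq_zero.1 (Subtype.ext h))
  obtain ⟨i, hi, j, hj, hij, hi0, hn⟩ := exists_pair_of_sum_eq_zero _ _ h1
    ⟨g.natDegree, Finset.mem_range.2 (by omega), mul_ne_zero hlead (pow_ne_zero _ hx)⟩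
  have hj0 : (g.coeff j : K) * x ^ j ≠ 0 := by
    rw [← norm_pos_iff, ← hn, norm_pos_iff]
    exact hi0
  have key : ∀ i j : ℕ, i < j → j ≤ g.natDegree → (g.coeff i : K) * x ^ i ≠ 0 →
      (g.coeff j : K) * x ^ j ≠ 0 → ‖(g.coeff i : K) * x ^ i‖ = ‖(g.coeff j : K) * x ^ j‖ →
      ∃ n : ℤ, ‖x‖ ^ D.factorial = c ^ n := by
    intro i j hij hj hi0 hj0 hn
    obtain ⟨a, ha⟩ := hF _ (g.coeff i).2 (left_ne_zero_of_mul hi0)
    obtain ⟨b, hb⟩ := hF _ (g.coeff j).2 (left_ne_zero_of_mul hj0)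
    rw [norm_mul, norm_mul, norm_pow, norm_pow, ha, hb] at hn
    obtain ⟨m, rfl⟩ := Nat.exists_eq_add_of_lt hij
    have h2 : ‖x‖ ^ (m + 1) = c ^ (a - b) := by
      rw [zpow_sub₀ hc0, eq_div_iff (zpow_ne_zero _ hc0)]
      have h3 : ‖x‖ ^ (i + m + 1) = ‖x‖ ^ i * ‖x‖ ^ (m + 1) := by rw [← pow_add]; rfl
      rw [h3] at hn
      have h4 : ‖x‖ ^ i ≠ 0 := pow_ne_zero _ hx0.ne'
      apply mul_right_cancel₀ h4
      rw [hn]
      ring
    have h5 : m + 1 ∣ D.factorial := Nat.dvd_factorial (Nat.succ_pos m) (by omega)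
    obtain ⟨e, he⟩ := h5
    refine ⟨(a - b) * e, ?_⟩
    rw [he, pow_mul, h2, zpow_mul, zpow_natCast]
  rw [Finset.mem_range] at hi hj
  rcases lt_or_gt_of_ne hij with h | h
  · exact key i j h (by omega) hi0 hj0 hn
  · exact key j i h (by omega) hj0 hi0 hn.symm

/-- a finite set of algebraic elements is contained in a subfield such that a fixed power of all norms
is in the value group -/
theorem exists_subfield {F : Subfield K} (hF : IsDisc F) {A : Set K} (hA : A.Finite)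
    (hAalg : ∀ a ∈ A, IsAlgebraic F a) : ∃ L : Subfield K, A ⊆ L ∧ F ≤ L ∧ ∃ (N : ℕ) (c : ℝ),
      1 ≤ N ∧ 1 < c ∧ ∀ x ∈ L, x ≠ 0 → ∃ n : ℤ, ‖x‖ ^ N = c ^ n := by
  obtain ⟨c, hc, hFc⟩ := hF
  have : Finite A := hA.to_subtype
  have hfd : FiniteDimensional F (IntermediateField.adjoin F A) :=
    IntermediateField.finiteDimensional_adjoin fun x hx => (hAalg x hx).isIntegral
  refine ⟨(IntermediateField.adjoin F A).toSubfield, ?_, ?_, (Module.finrank F
    (IntermediateField.adjoin F A)).factorial, c, Nat.succ_le_of_lt (Nat.factorial_pos _), hc,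
    fun x hx hx0 => ?_⟩
  · exact IntermediateField.subset_adjoin F A
  · intro x hx
    exact (IntermediateField.adjoin F A).algebraMap_mem ⟨x, hx⟩
  · let y : IntermediateField.adjoin F A := ⟨x, hx⟩
    have hint : IsIntegral F y := Algebra.IsIntegral.isIntegral y
    refine norm_pow_of_algebraic hc hFc hx0 (g := minpoly F y) (minpoly.ne_zero hint)
      (minpoly.natDegree_le y) ?_
    have h1 := minpoly.aeval F y
    have h2 : aeval ((IntermediateField.adjoin F A).val y) (minpoly F y) = 0 := by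
      rw [aeval_algHom_apply, h1, map_zero]
    exact h2

/-- `r ^ m` is the norm of an element of `L` for some `1 ≤ m ≤ d` -/
def Lat (L : Subfield K) (d : ℕ) (r : ℝ) : Prop :=
  ∃ m : ℕ, 1 ≤ m ∧ m ≤ d ∧ ∃ t ∈ L, t ≠ 0 ∧ r ^ m = ‖t‖

omit [IsUltrametricDist K] in
/-- there are finitely many radii in the lattice in a compact interval -/
theorem finite_lat {L : Subfield K} {N : ℕ} {c : ℝ} (hN : 1 ≤ N) (hc : 1 < c)
    (hL : ∀ x ∈ L, x ≠ 0 → ∃ n : ℤ, ‖x‖ ^ N = c ^ n) (d : ℕ) {δ₁ δ₂ : ℝ} (hδ : 0 < δ₁) :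
    {r : ℝ | δ₁ ≤ r ∧ r ≤ δ₂ ∧ Lat L d r}.Finite := by
  set M : ℕ := d.factorial * N with hM
  have hM0 : M ≠ 0 := by
    rw [hM]
    exact mul_ne_zero (Nat.factorial_ne_zero _) (by omega)
  have hlog : 0 < Real.log c := Real.log_pos hc
  have hT : {n : ℤ | (M : ℝ) * Real.log δ₁ ≤ n * Real.log c ∧
      (n : ℝ) * Real.log c ≤ M * Real.log δ₂}.Finite := by
    refine (Set.finite_Icc ⌊(M : ℝ) * Real.log δ₁ / Real.log c⌋
      ⌈(M : ℝ) * Real.log δ₂ / Real.log c⌉).subset ?_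
    rintro n ⟨h1, h2⟩
    constructor
    · rw [← div_le_iff₀ hlog] at h1
      exact_mod_cast (Int.floor_le _).trans h1
    · rw [← le_div_iff₀ hlog] at h2
      exact_mod_cast h2.trans (Int.le_ceil _)
  refine (hT.biUnion (t := fun n : ℤ => {r : ℝ | 0 < r ∧ r ^ M = c ^ n}) fun n _ => ?_).subset ?_
  · apply Set.Subsingleton.finite
    rintro r ⟨hr, h1⟩ r' ⟨hr', h2⟩
    exact (pow_left_inj₀ hr.le hr'.le hM0).1 (h1.trans h2.symm)
  · rintro r ⟨h1, h2, m, hm1, hm2, t, ht, ht0, hrt⟩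
    have hr : 0 < r := hδ.trans_le h1
    obtain ⟨n, hn⟩ := hL t ht ht0
    obtain ⟨e, he⟩ := Nat.dvd_factorial hm1 hm2
    have hrM : r ^ M = c ^ (n * e) := by
      rw [hM, he]
      calc r ^ (m * e * N) = ((r ^ m) ^ N) ^ e := by rw [← pow_mul, ← pow_mul]; ring_nf
        _ = c ^ (n * e) := by rw [hrt, hn, zpow_mul, zpow_natCast]
    refine Set.mem_biUnion (x := n * (e : ℤ)) ?_ ⟨hr, hrM⟩
    have h3 : (M : ℝ) * Real.log r = ((n * e : ℤ) : ℝ) * Real.log c := by
      rw [← Real.log_pow, hrM, Real.log_zpow]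
    refine ⟨?_, ?_⟩
    · rw [← h3]
      exact mul_le_mul_of_nonneg_left (Real.log_le_log hδ h1) (Nat.cast_nonneg _)
    · rw [← h3]
      exact mul_le_mul_of_nonneg_left (Real.log_le_log hr h2) (Nat.cast_nonneg _)

end DV97
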