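import Pool.Agent.FS31.StepMk
import Pool.Agent.DV97.Lat

/-!
# Monomial reductions

`L` is a subfield of `K`, the coefficients of `f` are in `L`, the centre of a chart is in `L` and its radius `r`
is not in the lattice (no `r ^ m`, `1 ≤ m ≤ deg f`, is a norm of an element of `L`).  Then the norms of
the nonzero coefficients of `P (a + ρ X)` are different, so that the reduction is a monomial.
-/

open Polynomial

noncomputable section

namespace DV97

open Pool.Agent.FIC FS16 FS31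

universe u

/-- the coefficients are in the subfield -/
def Over {K : Type u} [Field K] (L : Subfield K) (g : K[X]) : Prop := ∀ i, g.coeff i ∈ L

section

variable {K : Type u} [Field K] {L : Subfield K}

theorem over_iff {g : K[X]} : Over L g ↔ ∃ g₀ : L[X], g₀.map (algebraMap L K) = g := by
  constructor
  · intro h
    have h1 : g ∈ Polynomial.lifts (algebraMap L K) := by
      rw [Polynomial.lifts_iff_coeff_lifts]
      intro n
      exact ⟨⟨_, h n⟩, rfl⟩
    rwa [Polynomial.mem_lifts] at h1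
  · rintro ⟨g₀, rfl⟩ i
    rw [coeff_map]
    exact (g₀.coeff i).2

theorem over_sub_C_mul {g h : K[X]} (hg : Over L g) (hh : Over L h) {b : K} (hb : b ∈ L) :
    Over L (g - C b * h) := by
  intro i
  rw [coeff_sub, coeff_C_mul]
  exact L.sub_mem (hg i) (L.mul_mem hb (hh i))

theorem over_comp {g : K[X]} (hg : Over L g) {a : K} (ha : a ∈ L) : Over L (g.comp (X + C a)) := by
  obtain ⟨g₀, rfl⟩ := over_iff.1 hg
  refine over_iff.2 ⟨g₀.comp (X + C ⟨a, ha⟩), ?_⟩
  rw [map_comp, Polynomial.map_add, map_X, map_C]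
  rfl

theorem comp_coeff (g : K[X]) (a ρ : K) (i : ℕ) :
    (g.comp (C a + C ρ * X)).coeff i = (g.comp (X + C a)).coeff i * ρ ^ i := by
  have h : g.comp (C a + C ρ * X) = (g.comp (X + C a)).comp (C ρ * X) := by
    rw [comp_assoc, add_comp, X_comp, C_comp, add_comm]
  rw [h, comp_C_mul_X_coeff]

end

variable {K k : Type u} [NontriviallyNormedField K] [IsUltrametricDist K] [Field k]
  {L : Subfield K} {d : ℕ}

omit [IsUltrametricDist K] in
/-- outside of the lattice different monomials have different norms -/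
theorem norm_ne {g : K[X]} (hg : Over L g) (hd : g.natDegree ≤ d) {ρ : K} (hρ : ρ ≠ 0)
    (hlat : ¬ Lat L d ‖ρ‖) {i j : ℕ} (hij : i ≠ j) (hi : g.coeff i ≠ 0) (hj : g.coeff j ≠ 0) :
    ‖g.coeff i * ρ ^ i‖ ≠ ‖g.coeff j * ρ ^ j‖ := by
  have hρ0 : 0 < ‖ρ‖ := norm_pos_iff.2 hρ
  have key : ∀ i j : ℕ, i < j → g.coeff i ≠ 0 → g.coeff j ≠ 0 →
      ‖g.coeff i * ρ ^ i‖ ≠ ‖g.coeff j * ρ ^ j‖ := by
    intro i j hij hi hj h
    obtain ⟨m, rfl⟩ := Nat.exists_eq_add_of_lt hij
    have hjd : i + m + 1 ≤ d := (le_natDegree_of_ne_zero hj).trans hd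
    apply hlat
    refine ⟨m + 1, by omega, by omega, g.coeff i / g.coeff (i + m + 1),
      L.div_mem (hg _) (hg _), div_ne_zero hi hj, ?_⟩
    rw [norm_div, eq_div_iff (norm_ne_zero_iff.2 hj)]
    rw [norm_mul, norm_mul, norm_pow, norm_pow] at h
    have h2 : ‖ρ‖ ^ (i + m + 1) = ‖ρ‖ ^ i * ‖ρ‖ ^ (m + 1) := by rw [← pow_add]; rfl
    rw [h2] at h
    apply mul_right_cancel₀ (pow_ne_zero i hρ0.ne')
    rw [h]
    ring
  rcases lt_or_gt_of_ne hij with h | h
  · exact key i j h hi hj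
  · exact (key j i h hj hi).symm

omit [IsUltrametricDist K] in
/-- the reduction is a monomial -/
theorem isRed_mono {R : Residue K k} {g : K[X]} (hg : Over L g) (hd : g.natDegree ≤ d) {a ρ : K}
    (ha : a ∈ L) (hρ : ρ ≠ 0) (hlat : ¬ Lat L d ‖ρ‖) {e : K} {A : k[X]}
    (hA : IsRed R (C e * g.comp (C a + C ρ * X)) A) : ∃ (i : ℕ) (α : k), A = C α * X ^ i := by
  by_cases hA0 : A = 0
  · exact ⟨0, 0, by rw [hA0, map_zero, zero_mul]⟩
  have hG : Over L (g.comp (X + C a)) := over_comp hg ha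
  have hGd : (g.comp (X + C a)).natDegree ≤ d := by
    rw [natDegree_comp, natDegree_X_add_C, mul_one]
    exact hd
  have hco : ∀ i, A.coeff i ≠ 0 → (g.comp (X + C a)).coeff i ≠ 0 ∧
      ‖e‖ * ‖(g.comp (X + C a)).coeff i * ρ ^ i‖ = 1 := by
    intro i hi
    obtain ⟨h1, h2⟩ := hA i
    rw [← h2, R.norm_eq_one h1, coeff_C_mul, comp_coeff, norm_mul] at hi
    refine ⟨fun h => ?_, hi⟩
    rw [h, zero_mul, norm_zero, mul_zero] at hi
    exact zero_ne_one hi
  set i := A.natDegree with hi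
  have hlead : A.coeff i ≠ 0 := by
    rw [hi, coeff_natDegree]
    exact leadingCoeff_ne_zero.2 hA0
  refine ⟨i, A.coeff i, ?_⟩
  ext j
  rw [coeff_C_mul, coeff_X_pow]
  by_cases hij : j = i
  · rw [if_pos hij, mul_one, hij]
  · rw [if_neg hij, mul_zero]
    by_contra hj
    obtain ⟨h1, h2⟩ := hco i hlead
    obtain ⟨h3, h4⟩ := hco j hj
    have he : ‖e‖ ≠ 0 := fun h => by
      rw [h, zero_mul] at h2
      exact zero_ne_one h2
    exact norm_ne hG hGd hρ hlat hij h3 h1 (mul_left_cancel₀ he (h4.trans h2.symm))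

/-- a rational map `α u ^ i / (β u ^ j)` with `i = 0` or `j = 0` -/
def IsMono (T : RM k) : Prop :=
  ∃ (i j : ℕ) (α β : k), α ≠ 0 ∧ β ≠ 0 ∧ (i = 0 ∨ j = 0) ∧ T.p = C α * X ^ i ∧ T.q = C β * X ^ j

theorem mono_of_dvd {k : Type u} [Field k] {A : k[X]} {n : ℕ} {γ : k} (hγ : γ ≠ 0)
    (h : A ∣ C γ * X ^ n) : ∃ (i : ℕ) (α : k), α ≠ 0 ∧ A = C α * X ^ i := by
  have h1 : A ∣ X ^ n := by
    rw [← (associated_unit_mul_left (X ^ n) (C γ) (isUnit_C.2 hγ.isUnit)).dvd_iff_dvd_right]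
    exact h
  obtain ⟨i, _, hi⟩ := (dvd_prime_pow Polynomial.prime_X n).1 h1
  obtain ⟨u, hu⟩ := hi.symm
  obtain ⟨α, hα, hαu⟩ := Polynomial.isUnit_iff.1 u.isUnit
  refine ⟨i, α, hα.ne_zero, ?_⟩
  rw [← hu, ← hαu, mul_comm]

/-- the directions of `0` and `∞` -/
def zinf (k : Type u) [Field k] : Set (OnePoint k) := {((0 : k) : OnePoint k), OnePoint.infty}

section

variable {k : Type u} [Field k]

theorem rm_mono {α : k} (hα : α ≠ 0) (i : ℕ) : (C α * X ^ i : k[X]).rootMultiplicity 0 = i := by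
  have h1 : (C α * X ^ i : k[X]) ≠ 0 := mul_ne_zero (C_ne_zero.2 hα) (pow_ne_zero _ X_ne_zero)
  rw [rootMultiplicity_mul h1, rootMultiplicity_C, zero_add]
  have h2 := rootMultiplicity_X_sub_C_pow (0 : k) i
  rwa [C_0, sub_zero] at h2

theorem rm_mono_ne {α : k} (hα : α ≠ 0) (i : ℕ) {u : k} (hu : u ≠ 0) :
    (C α * X ^ i : k[X]).rootMultiplicity u = 0 := by
  rw [rootMultiplicity_eq_zero_iff]
  intro h
  rw [IsRoot.def, eval_mul, eval_C, eval_pow, eval_X] at h
  exact absurd h (mul_ne_zero hα (pow_ne_zero _ hu))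

theorem nd_mono {α : k} (hα : α ≠ 0) (i : ℕ) : (C α * X ^ i : k[X]).natDegree = i :=
  natDegree_C_mul_X_pow i α hα

/-- the map and the multiplicities of a monomial map at `0` and `∞` -/
theorem IsMono.facts [IsAlgClosed k] {T : RM k} (hT : IsMono T) (hd : 1 ≤ T.deg) :
    (∀ u ∈ zinf k, T.map u ∈ zinf k) ∧ ∀ u ∈ zinf k, T.mult u = T.deg := by
  classical
  obtain ⟨i, j, α, β, hα, hβ, hij, hp, hq⟩ := hT
  have hdeg : T.deg = max i j := by rw [RM.deg, hp, hq, nd_mono hα, nd_mono hβ]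
  have hmult : ∀ u, T.mult u = (T.fibM (T.map u)).count u := fun u => by
    rw [gd_count_eq T hd, if_pos rfl]
  rcases hij with rfl | rfl
  · have hj : T.deg = j := by rw [hdeg]; simp
    have hj1 : 1 ≤ j := hj ▸ hd
    have h0 : T.map ((0 : k) : OnePoint k) = OnePoint.infty := by
      apply T.map_pole
      rw [hq, eval_mul, eval_pow, eval_X, zero_pow (by omega), mul_zero]
    have hinf : T.map OnePoint.infty = ((0 : k) : OnePoint k) := by
      rw [T.map_infty (by rw [hq, nd_mono hβ, hj]), RM.inf, hj, hp, coeff_C_mul, coeff_X_pow,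
        if_neg (by omega), mul_zero, zero_div]
    refine ⟨?_, ?_⟩
    · rintro u (rfl | rfl)
      · rw [h0]
        exact Or.inr rfl
      · rw [hinf]
        exact Or.inl rfl
    · rintro u (rfl | rfl)
      · rw [hmult, h0, gd_count_coe, gd_infty, hq, rm_mono hβ, hj]
      · rw [hmult, hinf, gd_count_infty, gd_coe, C_0, zero_mul, sub_zero, hp, nd_mono hα]
        rfl
  · have hi : T.deg = i := by rw [hdeg]; simp
    have hi1 : 1 ≤ i := hi ▸ hd
    have h0 : T.map ((0 : k) : OnePoint k) = ((0 : k) : OnePoint k) := by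
      have hq0 : T.q.eval 0 ≠ 0 := by
        rw [hq, pow_zero, mul_one, eval_C]
        exact hβ
      rw [T.map_coe hq0, RM.ev, hp, eval_mul, eval_pow, eval_X, zero_pow (by omega), mul_zero,
        zero_div]
    have hinf : T.map OnePoint.infty = OnePoint.infty := by
      apply T.map_infty_pole
      rw [hq, nd_mono hβ, hi]
      omega
    refine ⟨?_, ?_⟩
    · rintro u (rfl | rfl)
      · rw [h0]
        exact Or.inl rfl
      · rw [hinf]
        exact Or.inr rfl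
    · rintro u (rfl | rfl)
      · rw [hmult, h0, gd_count_coe, gd_coe, C_0, zero_mul, sub_zero, hp, rm_mono hα, hi]
      · rw [hmult, hinf, gd_count_infty, gd_infty, hq, nd_mono hβ]
        rfl

end

variable [IsAlgClosed K]

omit [IsUltrametricDist K] in
/-- the numerator and the denominator of the conjugated map, for plain charts -/
theorem cj_plain {f : RM K} {c c' : Chart K} (hc : c.inv = false) (hc' : c'.inv = false) :
    (f.cj c c').p = (f.p - C c'.a * f.q).comp (C c.a + C c.ρ * X) ∧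
    (f.cj c c').q = C c'.ρ * f.q.comp (C c.a + C c.ρ * X) := by
  constructor
  · change c'.num (c.preP f.deg f.p) (c.preP f.deg f.q) = _
    unfold Chart.num
    rw [if_neg (by simp [hc']), NC.preP_of_not_inv c hc, NC.preP_of_not_inv c hc, sub_comp, mul_comp,
      C_comp]
  · change c'.den (c.preP f.deg f.p) (c.preP f.deg f.q) = _
    unfold Chart.den
    rw [if_neg (by simp [hc']), NC.preP_of_not_inv c hc]

/-- between charts with centres in `L` and with radius outside of the lattice at the source, the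
reduction is a monomial map and the only directions of positive surplus are `0` and `∞` -/
theorem good_mono {R : Residue K k} {f : RM K} (hP : Over L f.p) (hQ : Over L f.q) (hd : f.deg ≤ d)
    {c c' : Chart K} (hc : c.inv = false) (hc' : c'.inv = false) (ha : c.a ∈ L) (ha' : c'.a ∈ L)
    (hlat : ¬ Lat L d ‖c.ρ‖) {h : k[X]} {T : RM k} (hg : GoodRed R (f.cj c c') h T) :
    IsMono T ∧ (∃ (m : ℕ) (η : k), η ≠ 0 ∧ h = C η * X ^ m) ∧
      ∀ u, spl (f.cj c c') h T u ≠ 0 → u ∈ zinf k := by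
  obtain ⟨hh, hT, e, he, hp, hq⟩ := hg
  obtain ⟨hcp, hcq⟩ := cj_plain (f := f) hc hc'
  have hPd : (f.p - C c'.a * f.q).natDegree ≤ d :=
    (natDegree_sub_le _ _).trans (max_le ((le_max_left _ _).trans hd)
      ((natDegree_C_mul_le _ _).trans ((le_max_right _ _).trans hd)))
  have hQd : f.q.natDegree ≤ d := (le_max_right _ _).trans hd
  rw [hcp] at hp
  rw [hcq, ← mul_assoc, ← C_mul] at hq
  obtain ⟨i, α, h1⟩ := isRed_mono (over_sub_C_mul hP hQ ha') hPd ha c.hρ hlat hp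
  obtain ⟨j, β, h2⟩ := isRed_mono hQ hQd ha c.hρ hlat hq
  have hTp : T.p ≠ 0 := by
    intro h0
    have h3 := T.cop
    rw [h0, isCoprime_zero_left] at h3
    have h4 := natDegree_eq_zero_of_isUnit h3
    rw [RM.deg, h0, h4] at hT
    simp at hT
  have hTq : T.q ≠ 0 := T.q_ne_zero hT
  have hα : α ≠ 0 := by
    rintro rfl
    rw [map_zero, zero_mul] at h1
    exact mul_ne_zero hh hTp h1
  have hβ : β ≠ 0 := by
    rintro rfl
    rw [map_zero, zero_mul] at h2
    exact mul_ne_zero hh hTq h2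
  obtain ⟨i', α', hα', h3⟩ := mono_of_dvd hα (h1 ▸ dvd_mul_left T.p h : T.p ∣ C α * X ^ i)
  obtain ⟨j', β', hβ', h4⟩ := mono_of_dvd hβ (h2 ▸ dvd_mul_left T.q h : T.q ∣ C β * X ^ j)
  obtain ⟨m, η, hη, h5⟩ := mono_of_dvd hα (h1 ▸ dvd_mul_right h T.p : h ∣ C α * X ^ i)
  refine ⟨⟨i', j', α', β', hα', hβ', ?_, h3, h4⟩, ⟨m, η, hη, h5⟩, ?_⟩
  · by_contra hcon
    push Not at hcon
    have h6 : (X : k[X]) ∣ T.p := by
      rw [h3]
      exact (dvd_pow_self X hcon.1).mul_left _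
    have h7 : (X : k[X]) ∣ T.q := by
      rw [h4]
      exact (dvd_pow_self X hcon.2).mul_left _
    exact Polynomial.prime_X.not_isUnit (T.cop.isUnit_of_dvd' h6 h7)
  · intro u hu
    cases u using OnePoint.rec with
    | infty => exact Or.inr rfl
    | coe u =>
      by_cases hu0 : u = 0
      · rw [hu0]
        exact Or.inl rfl
      · exfalso
        apply hu
        change h.rootMultiplicity u = 0
        rw [h5]
        exact rm_mono_ne hη m hu0

/-- the centre of the chart of the image can be moved to `L` -/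
theorem exists_centre {R : Residue K k} {f : RM K} (hP : Over L f.p) (hQ : Over L f.q)
    {c c' : Chart K} (hc : c.inv = false) (hc' : c'.inv = false) (ha : c.a ∈ L) {h : k[X]} {T : RM k}
    (hg : GoodRed R (f.cj c c') h T) : ∃ b ∈ L, ‖b - c'.a‖ ≤ ‖c'.ρ‖ := by
  obtain ⟨hh, hT, e, he, hp, hq⟩ := hg
  obtain ⟨hcp, hcq⟩ := cj_plain (f := f) hc hc'
  have hTq : T.q ≠ 0 := T.q_ne_zero hT
  have hA : h * T.q ≠ 0 := mul_ne_zero hh hTq
  set j := (h * T.q).natDegree with hj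
  have hlead : (h * T.q).coeff j ≠ 0 := by
    rw [hj, coeff_natDegree]
    exact leadingCoeff_ne_zero.2 hA
  obtain ⟨h1, h2⟩ := hq j
  rw [← h2, R.norm_eq_one h1, hcq, coeff_C_mul, coeff_C_mul, comp_coeff] at hlead
  obtain ⟨h3, -⟩ := hp j
  rw [hcp, coeff_C_mul, comp_coeff, sub_comp, mul_comp, C_comp, coeff_sub, coeff_C_mul] at h3
  set p := (f.p.comp (X + C c.a)).coeff j with hpdef
  set q := (f.q.comp (X + C c.a)).coeff j with hqdef
  have hpL : p ∈ L := over_comp hP ha j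
  have hqL : q ∈ L := over_comp hQ ha j
  have hq0 : q ≠ 0 := by
    rintro h0
    rw [h0] at hlead
    simp at hlead
  have he0 : 0 < ‖e‖ := norm_pos_iff.2 he
  have hρ0 : 0 < ‖c.ρ ^ j‖ := norm_pos_iff.2 (pow_ne_zero _ c.hρ)
  refine ⟨p / q, L.div_mem hpL hqL, ?_⟩
  have h4 : p / q - c'.a = (p - c'.a * q) / q := by
    field_simp
  rw [h4, norm_div, div_le_iff₀ (norm_pos_iff.2 hq0)]
  rw [norm_mul, norm_mul, norm_mul] at hlead
  rw [norm_mul, norm_mul] at h3
  have h5 : ‖e‖ * (‖p - c'.a * q‖ * ‖c.ρ ^ j‖) ≤ ‖e‖ * (‖c'.ρ‖ * ‖q‖ * ‖c.ρ ^ j‖) := by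
    rw [mul_assoc ‖c'.ρ‖, hlead]
    exact h3
  exact le_of_mul_le_mul_right (le_of_mul_le_mul_left h5 he0) hρ0

/-- the radius of the image is not in the lattice -/
theorem lat_image {R : Residue K k} {f : RM K} (hP : Over L f.p) (hQ : Over L f.q) (hd : f.deg ≤ d)
    {c c' : Chart K} (hc : c.inv = false) (hc' : c'.inv = false) (ha : c.a ∈ L) (ha' : c'.a ∈ L)
    (hlat : ¬ Lat L d ‖c.ρ‖) {h : k[X]} {T : RM k} (hg : GoodRed R (f.cj c c') h T)
    (hT1 : T.deg = 1) : ¬ Lat L d ‖c'.ρ‖ := by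
  obtain ⟨⟨i, j, α, β, hα, hβ, hij, hTp, hTq⟩, ⟨m, η, hη, hh⟩, -⟩ :=
    good_mono hP hQ hd hc hc' ha ha' hlat hg
  obtain ⟨-, -, e, he, hp, hq⟩ := hg
  obtain ⟨hcp, hcq⟩ := cj_plain (f := f) hc hc'
  have hdeg : max i j = 1 := by rw [← hT1, RM.deg, hTp, hTq, nd_mono hα, nd_mono hβ]
  have he0 : 0 < ‖e‖ := norm_pos_iff.2 he
  have hρ0 : 0 < ‖c.ρ‖ := norm_pos_iff.2 c.hρ
  -- the two leading coefficients
  have hcp1 : (h * T.p).coeff (m + i) ≠ 0 := by
    rw [hh, hTp, mul_mul_mul_comm, ← C_mul, ← pow_add, coeff_C_mul, coeff_X_pow_self, mul_one]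
    exact mul_ne_zero hη hα
  have hcq1 : (h * T.q).coeff (m + j) ≠ 0 := by
    rw [hh, hTq, mul_mul_mul_comm, ← C_mul, ← pow_add, coeff_C_mul, coeff_X_pow_self, mul_one]
    exact mul_ne_zero hη hβ
  obtain ⟨h1, h2⟩ := hp (m + i)
  obtain ⟨h3, h4⟩ := hq (m + j)
  rw [← h2, R.norm_eq_one h1, hcp, coeff_C_mul, comp_coeff] at hcp1
  rw [← h4, R.norm_eq_one h3, hcq, coeff_C_mul, coeff_C_mul, comp_coeff] at hcq1
  have hPL : ((f.p - C c'.a * f.q).comp (X + C c.a)).coeff (m + i) ∈ L :=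
    over_comp (over_sub_C_mul hP hQ ha') ha _
  have hQL : (f.q.comp (X + C c.a)).coeff (m + j) ∈ L := over_comp hQ ha _
  generalize ((f.p - C c'.a * f.q).comp (X + C c.a)).coeff (m + i) = p at hcp1 hPL
  generalize (f.q.comp (X + C c.a)).coeff (m + j) = q at hcq1 hQL
  have hp0 : p ≠ 0 := by
    rintro rfl
    simp at hcp1
  have hq0 : q ≠ 0 := by
    rintro rfl
    simp at hcq1
  have hp0' : 0 < ‖p‖ := norm_pos_iff.2 hp0
  have hq0' : 0 < ‖q‖ := norm_pos_iff.2 hq0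
  -- the equation for the radii
  have key : ‖p‖ * ‖c.ρ‖ ^ i = ‖c'.ρ‖ * (‖q‖ * ‖c.ρ‖ ^ j) := by
    have h5 : ‖e * (p * c.ρ ^ (m + i))‖ = ‖e * (c'.ρ * (q * c.ρ ^ (m + j)))‖ := hcp1.trans hcq1.symm
    rw [norm_mul, norm_mul, norm_mul, norm_mul, norm_mul, norm_pow, norm_pow] at h5
    have h6 := mul_left_cancel₀ he0.ne' h5
    have h7 : (‖c.ρ‖ ^ m) * (‖p‖ * ‖c.ρ‖ ^ i) = (‖c.ρ‖ ^ m) * (‖c'.ρ‖ * (‖q‖ * ‖c.ρ‖ ^ j)) := by
      rw [pow_add, pow_add] at h6
      linear_combination h6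
    exact mul_left_cancel₀ (pow_ne_zero m hρ0.ne') h7
  rintro ⟨n, hn1, hnd, t, htL, ht0, hnt⟩
  apply hlat
  have ht0' : 0 < ‖t‖ := norm_pos_iff.2 ht0
  rcases hij with rfl | rfl
  · -- `T u = const / u`
    have hj : j = 1 := by simpa using hdeg
    subst hj
    rw [pow_zero, mul_one, pow_one] at key
    refine ⟨n, hn1, hnd, (p / q) ^ n / t, L.div_mem (L.pow_mem (L.div_mem hPL hQL) n) htL,
      div_ne_zero (pow_ne_zero _ (div_ne_zero hp0 hq0)) ht0, ?_⟩
    rw [norm_div, norm_pow, norm_div, ← hnt, eq_div_iff (pow_ne_zero _ (norm_pos_iff.2 c'.hρ).ne'),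
      ← mul_pow]
    congr 1
    rw [eq_div_iff hq0'.ne', key]
    ring
  · have hi : i = 1 := by simpa using hdeg
    subst hi
    rw [pow_zero, mul_one, pow_one] at key
    refine ⟨n, hn1, hnd, t * (q / p) ^ n, L.mul_mem htL (L.pow_mem (L.div_mem hQL hPL) n),
      mul_ne_zero ht0 (pow_ne_zero _ (div_ne_zero hq0 hp0)), ?_⟩
    rw [norm_mul, norm_pow, norm_div, ← hnt, ← mul_pow]
    congr 1
    rw [mul_div_assoc', eq_div_iff hp0'.ne', ← key]
    ring

end DV97
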