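import Pool.Agent.DV97.Cyc
import Pool.Agent.DV97.Mono

/-!
# The boundary points between points of a finite set of `L`-rational points

`loc_chart`: if `x`, `x'` are two boundary points of a component `W` whose holes contain two points of `S` each, then
`x` has a chart whose centre is in `S`, such that `W` is in the direction of `0` or `∞`, and whose radius is
between two distances of points of `S`.
`lat_of_bd`: then the radius is in the lattice of `L`.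
-/

open Polynomial

noncomputable section

namespace DV97

open Pool.Agent.FIC FS16 FS31

universe u

variable {K k : Type u} [NontriviallyNormedField K] [IsUltrametricDist K] [IsAlgClosed K] [Field k]
  [IsAlgClosed k]

/-- the direction of a finite point in a plain chart -/
theorem dir_plain (R : Residue K k) {c : Chart K} (hc : c.inv = false) (z : K) :
    (‖z - c.a‖ ≤ ‖c.ρ‖ → dirR R (c.to (z : OnePoint K)) =
      ((R.red ((z - c.a) / c.ρ) : k) : OnePoint k)) ∧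
    (‖c.ρ‖ < ‖z - c.a‖ → dirR R (c.to (z : OnePoint K)) = OnePoint.infty) := by
  have hρ : 0 < ‖c.ρ‖ := norm_pos_iff.2 c.hρ
  rw [c.to_coe_false hc]
  constructor
  · intro h
    apply dirR_coe
    rw [norm_div]
    exact div_le_one_of_le₀ h hρ.le
  · intro h
    apply dirR_coe_of_lt
    rw [norm_div]
    exact (one_lt_div hρ).2 h

theorem dir_plain_infty (R : Residue K k) {c : Chart K} (hc : c.inv = false) :
    dirR R (c.to OnePoint.infty) = OnePoint.infty := by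
  rw [c.to_infty_false hc, dirR_infty]

theorem dir_ne_infty (R : Residue K k) {c : Chart K} (hc : c.inv = false) {z : OnePoint K}
    (h : dirR R (c.to z) ≠ OnePoint.infty) : ∃ a : K, z = (a : OnePoint K) ∧ ‖a - c.a‖ ≤ ‖c.ρ‖ := by
  cases z using OnePoint.rec with
  | infty => exact absurd (dir_plain_infty R hc) h
  | coe a =>
    refine ⟨a, rfl, ?_⟩
    by_contra hcon
    exact h ((dir_plain R hc a).2 (not_le.1 hcon))

theorem um_sub {a b c : K} {r : ℝ} (h1 : ‖a - b‖ ≤ r) (h2 : ‖b - c‖ ≤ r) : ‖a - c‖ ≤ r := by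
  have e : a - c = (a - b) + (b - c) := by ring
  rw [e]
  exact (IsUltrametricDist.norm_add_le_max _ _).trans (max_le h1 h2)

theorem um_sub' {a b c : K} {r : ℝ} (h1 : r < ‖a - b‖) (h2 : ‖b - c‖ ≤ r) : r < ‖a - c‖ := by
  by_contra h
  refine absurd (um_sub (not_lt.1 h) ?_) (not_le.2 h1)
  rwa [norm_sub_rev]

/-- two finite points have the same finite direction iff they are close -/
theorem dir_eq_iff (R : Residue K k) {c : Chart K} (hc : c.inv = false) {a b : K}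
    (ha : ‖a - c.a‖ ≤ ‖c.ρ‖) (hb : ‖b - c.a‖ ≤ ‖c.ρ‖) :
    dirR R (c.to (a : OnePoint K)) = dirR R (c.to (b : OnePoint K)) ↔ ‖a - b‖ < ‖c.ρ‖ := by
  have hρ : 0 < ‖c.ρ‖ := norm_pos_iff.2 c.hρ
  have h1 : ‖(a - c.a) / c.ρ‖ ≤ 1 := by
    rw [norm_div]
    exact div_le_one_of_le₀ ha hρ.le
  have h2 : ‖(b - c.a) / c.ρ‖ ≤ 1 := by
    rw [norm_div]
    exact div_le_one_of_le₀ hb hρ.le
  rw [(dir_plain R hc a).1 ha, (dir_plain R hc b).1 hb, OnePoint.coe_injective.eq_iff,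
    R.eq_iff h1 h2]
  have e : (a - c.a) / c.ρ - (b - c.a) / c.ρ = (a - b) / c.ρ := by ring
  rw [e, norm_div, div_lt_one hρ]

theorem exists_finite {S : Set (OnePoint K)} {z₀ z₁ : OnePoint K} (hne : z₀ ≠ z₁) (h₀ : z₀ ∈ S)
    (h₁ : z₁ ∈ S) {p : OnePoint K → Prop} (hp₀ : p z₀) (hp₁ : p z₁) :
    ∃ a : K, (a : OnePoint K) ∈ S ∧ p (a : OnePoint K) := by
  cases z₀ using OnePoint.rec with
  | infty =>
    cases z₁ using OnePoint.rec with
    | infty => exact absurd rfl hne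
    | coe a => exact ⟨a, h₁, hp₁⟩
  | coe a => exact ⟨a, h₀, hp₀⟩

theorem loc_chart (R : Residue K k) {W : Set (BerkP K)} (hW : HasHoles W)
    (hp : toP (pick W) ∈ W) {x x' : BerkP K} (hx : x ∈ bd W) (hx' : x' ∈ bd W) (hne : x ≠ x')
    {S : Set (OnePoint K)} (hr : Rich R S W x) (hr' : Rich R S W x') :
    ∃ c : Chart K, c.inv = false ∧ zpt c = x ∧ (c.a : OnePoint K) ∈ S ∧
      dirR R (c.to (pick W)) ∈ zinf k ∧
      (∃ a b : K, (a : OnePoint K) ∈ S ∧ (b : OnePoint K) ∈ S ∧ a ≠ b ∧ ‖a - b‖ ≤ ‖c.ρ‖) ∧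
      (∃ a b : K, (a : OnePoint K) ∈ S ∧ (b : OnePoint K) ∈ S ∧ ‖c.ρ‖ ≤ ‖a - b‖) ∧
      ∃ w ∈ S, dirR R (c.to w) = dirR R (c.to (pick W)) := by
  obtain ⟨z₀, hz₀, z₁, hz₁, hz, hzS, hzS'⟩ := hr
  obtain ⟨w₀, hw₀, w₁, hw₁, hw, hwS, hwS'⟩ := hr'
  have hcx : zpt (ch x) = x := zpt_ch (exists_chart_bd R hW hx)
  have hcx' : zpt (ch x') = x' := zpt_ch (exists_chart_bd R hW hx')
  -- the directions of `w₀`, `w₁` at `x`
  have hd₀ := disj R hW hp hx' hx hne.symm hcx' hcx w₀ hw₀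
  have hd₁ := disj R hW hp hx' hx hne.symm hcx' hcx w₁ hw₁
  -- a plain chart
  obtain ⟨c₀, hc₀, hc₀x⟩ : ∃ c₀ : Chart K, c₀.inv = false ∧ zpt c₀ = x :=
    ⟨⟨(ch x).a, (ch x).ρ, (ch x).hρ, false⟩, rfl, by rw [zpt_flip]; exact hcx⟩
  obtain ⟨θ, hθ⟩ := exists_theta R ((zpt_eq_iff (ch x) c₀).1 (hcx.trans hc₀x.symm))
  have hz₀' : dirR R (c₀.to z₀) ≠ dirR R (c₀.to (pick W)) := by
    rw [hθ, hθ]
    exact fun h => hz₀ (θ.injective h)
  have hz₁' : dirR R (c₀.to z₁) ≠ dirR R (c₀.to (pick W)) := by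
    rw [hθ, hθ]
    exact fun h => hz₁ (θ.injective h)
  have hd₀' : dirR R (c₀.to w₀) = dirR R (c₀.to (pick W)) := by rw [hθ, hθ, hd₀]
  have hd₁' : dirR R (c₀.to w₁) = dirR R (c₀.to (pick W)) := by rw [hθ, hθ, hd₁]
  have hmk : ∀ a : K, ‖a - c₀.a‖ ≤ ‖c₀.ρ‖ → zpt (⟨a, c₀.ρ, c₀.hρ, false⟩ : Chart K) = x := by
    intro a ha
    rw [← hc₀x, zpt_eq_iff]
    exact ⟨rfl, ha⟩
  by_cases hv : dirR R (c₀.to (pick W)) = OnePoint.infty
  · rw [hv] at hz₀' hz₁' hd₀' hd₁'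
    obtain ⟨a₀, rfl, ha₀⟩ := dir_ne_infty R hc₀ hz₀'
    obtain ⟨a₁, rfl, ha₁⟩ := dir_ne_infty R hc₀ hz₁'
    have ha : a₀ ≠ a₁ := fun h => hz (by rw [h])
    have hinf : ∀ z : OnePoint K, dirR R (c₀.to z) = OnePoint.infty →
        dirR R ((⟨a₀, c₀.ρ, c₀.hρ, false⟩ : Chart K).to z) = OnePoint.infty ∧
        ∀ b : K, z = (b : OnePoint K) → ‖c₀.ρ‖ < ‖b - a₀‖ := by
      intro z hz
      cases z using OnePoint.rec with
      | infty =>
        exact ⟨dir_plain_infty R rfl, fun b hb => absurd hb (OnePoint.infty_ne_coe b)⟩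
      | coe b =>
        have h1 : ‖c₀.ρ‖ < ‖b - c₀.a‖ := by
          by_contra hcon
          rw [(dir_plain R hc₀ b).1 (not_lt.1 hcon)] at hz
          exact OnePoint.coe_ne_infty _ hz
        have h2 : ‖c₀.ρ‖ < ‖b - a₀‖ := um_sub' h1 (by rw [norm_sub_rev]; exact ha₀)
        refine ⟨(dir_plain R (c := ⟨a₀, c₀.ρ, c₀.hρ, false⟩) rfl b).2 h2, fun b' hb' => ?_⟩
        rw [← OnePoint.coe_injective hb']
        exact h2
    obtain ⟨b, hbS, hb⟩ := exists_finite hw hwS hwS'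
      (p := fun z => dirR R (c₀.to z) = OnePoint.infty) hd₀' hd₁'
    refine ⟨⟨a₀, c₀.ρ, c₀.hρ, false⟩, rfl, hmk a₀ ha₀, hzS, ?_, ⟨a₀, a₁, hzS, hzS', ha, ?_⟩,
      ⟨b, a₀, hbS, hzS, ((hinf _ hb).2 b rfl).le⟩, (b : OnePoint K), hbS, ?_⟩
    · rw [(hinf _ hv).1]
      exact Or.inr rfl
    · exact um_sub ha₀ (by rw [norm_sub_rev]; exact ha₁)
    · rw [(hinf _ hb).1, (hinf _ hv).1]
  · have hd₀n : dirR R (c₀.to w₀) ≠ OnePoint.infty := by rwa [hd₀']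
    have hd₁n : dirR R (c₀.to w₁) ≠ OnePoint.infty := by rwa [hd₁']
    obtain ⟨b₀, rfl, hb₀⟩ := dir_ne_infty R hc₀ hd₀n
    obtain ⟨b₁, rfl, hb₁⟩ := dir_ne_infty R hc₀ hd₁n
    obtain ⟨q, hq, hqc⟩ := dir_ne_infty R hc₀ hv
    rw [hq] at hd₀' hd₁' hz₀' hz₁'
    have hb : b₀ ≠ b₁ := fun h => hw (by rw [h])
    have h01 : ‖b₀ - b₁‖ < ‖c₀.ρ‖ := (dir_eq_iff R hc₀ hb₀ hb₁).1 (hd₀'.trans hd₁'.symm)
    have h0q : ‖q - b₀‖ < ‖c₀.ρ‖ := by
      rw [norm_sub_rev]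
      exact (dir_eq_iff R hc₀ hb₀ hqc).1 hd₀'
    obtain ⟨a, haS, ha⟩ := exists_finite hz hzS hzS'
      (p := fun z => dirR R (c₀.to z) ≠ dirR R (c₀.to (q : OnePoint K))) hz₀' hz₁'
    have hab : ‖c₀.ρ‖ ≤ ‖a - b₀‖ := by
      by_contra hcon
      rw [not_le] at hcon
      have h1 : ‖a - c₀.a‖ ≤ ‖c₀.ρ‖ := um_sub hcon.le hb₀
      exact ha (((dir_eq_iff R hc₀ h1 hb₀).2 hcon).trans hd₀')
    have hzero : ∀ z : K, ‖z - b₀‖ < ‖c₀.ρ‖ →
        dirR R ((⟨b₀, c₀.ρ, c₀.hρ, false⟩ : Chart K).to (z : OnePoint K)) =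
          ((0 : k) : OnePoint k) := by
      intro z hz
      have hb₀b : ‖b₀ - b₀‖ ≤ ‖c₀.ρ‖ := by
        rw [sub_self, norm_zero]
        exact norm_nonneg _
      rw [(dir_eq_iff R (c := ⟨b₀, c₀.ρ, c₀.hρ, false⟩) rfl hz.le hb₀b).2 hz,
        (dir_plain R (c := ⟨b₀, c₀.ρ, c₀.hρ, false⟩) rfl b₀).1 hb₀b]
      change ((R.red ((b₀ - b₀) / c₀.ρ) : k) : OnePoint k) = _
      rw [sub_self, zero_div, R.zero]
    refine ⟨⟨b₀, c₀.ρ, c₀.hρ, false⟩, rfl, hmk b₀ hb₀, hwS, ?_, ⟨b₀, b₁, hwS, hwS', hb, h01.le⟩,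
      ⟨a, b₀, haS, hwS, hab⟩, (b₀ : OnePoint K), hwS, ?_⟩
    · rw [hq, hzero q h0q]
      exact Or.inl rfl
    · rw [hq, hzero q h0q, hzero b₀ (by
        rw [sub_self, norm_zero]
        exact norm_pos_iff.2 c₀.hρ)]

variable {L : Subfield K} {f : RatMap K}

/-- facts about reductions between charts with centres in `L` outside of the lattice -/
theorem good_facts (R : Residue K k) (hd : 1 ≤ f.degree) (hP : Over L f.P) (hQ : Over L f.Q)
    {W : Set (BerkP K)} (hW : Reg f W) {x : BerkP K} (hx : x ∈ bd W) {c c' : Chart K}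
    (hc : c.inv = false) (hcx : zpt c = x) (ha : c.a ∈ L) (hlat : ¬ Lat L f.degree ‖c.ρ‖)
    (hv : dirR R (c.to (pick W)) ∈ zinf k) (hc' : c'.inv = false) (hcx' : zpt c' = f.map x)
    (ha' : c'.a ∈ L) {h : k[X]} {T : RM k} (hg : GoodRed R ((toRM f).cj c c') h T) :
    T.deg = 1 ∧ (∀ u, spl ((toRM f).cj c c') h T u ≠ 0 → u ∈ zinf k) ∧
      (∀ u ∈ zinf k, T.map u ∈ zinf k) ∧ ¬ Lat L f.degree ‖c'.ρ‖ ∧
      dirR R (c'.to (pick (f.map '' W))) ∈ zinf k := by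
  obtain ⟨hm, -, hspl⟩ := good_mono (d := f.degree) (f := toRM f) hP hQ le_rfl hc hc' ha ha' hlat hg
  obtain ⟨h1, h2⟩ := hm.facts hg.2.1
  obtain ⟨h3, h4⟩ := hW.dir R hd hx hcx hcx' hg
  have hT : T.deg = 1 := by rw [← h2 _ hv, h4]
  refine ⟨hT, hspl, h1, lat_image (f := toRM f) hP hQ le_rfl hc hc' ha ha' hlat hg hT, ?_⟩
  rw [← h3]
  exact h1 _ hv

theorem step_chart (R : Residue K k) (hd : 1 ≤ f.degree) (hP : Over L f.P) (hQ : Over L f.Q)
    {W : Set (BerkP K)} (hW : Reg f W) {x : BerkP K} (hx : x ∈ bd W) {c : Chart K}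
    (hc : c.inv = false) (hcx : zpt c = x) (ha : c.a ∈ L) (hlat : ¬ Lat L f.degree ‖c.ρ‖)
    (hv : dirR R (c.to (pick W)) ∈ zinf k) : ∃ c' : Chart K, c'.inv = false ∧ zpt c' = f.map x ∧
      c'.a ∈ L ∧ ¬ Lat L f.degree ‖c'.ρ‖ ∧ dirR R (c'.to (pick (f.map '' W))) ∈ zinf k := by
  obtain ⟨c₁, hc₁⟩ := exists_chart_bd R hW.hol' (hW.map_bd hx)
  obtain ⟨c₂, hc₂, hc₂x⟩ : ∃ c₂ : Chart K, c₂.inv = false ∧ zpt c₂ = f.map x :=
    ⟨⟨c₁.a, c₁.ρ, c₁.hρ, false⟩, rfl, by rw [zpt_flip]; exact hc₁⟩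
  obtain ⟨h₂, T₂, hg₂⟩ := exists_goodRed R f (c := c) (c' := c₂) (by rw [hcx, hc₂x])
  obtain ⟨b, hb, hbc⟩ := exists_centre (f := toRM f) hP hQ hc hc₂ ha hg₂
  have hcx' : zpt (⟨b, c₂.ρ, c₂.hρ, false⟩ : Chart K) = f.map x := by
    rw [← hc₂x, zpt_eq_iff]
    exact ⟨rfl, hbc⟩
  obtain ⟨h, T, hg⟩ := exists_goodRed R f (c := c) (c' := ⟨b, c₂.ρ, c₂.hρ, false⟩)
    (by rw [hcx, hcx'])
  obtain ⟨-, -, -, h1, h2⟩ := good_facts R hd hP hQ hW hx hc hcx ha hlat hv rfl hcx' hb hg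
  exact ⟨_, rfl, hcx', hb, h1, h2⟩

/-- the radius is in the lattice -/
theorem lat_of_bd (R : Residue K k) (hd : 2 ≤ f.degree) (hP : Over L f.P) (hQ : Over L f.Q)
    {U : ℕ → Set (BerkP K)} {P : ℕ} (D : CycD f U P) {l : ℕ} {x : BerkP K} (hx : x ∈ bd (U l))
    {c : Chart K} (hc : c.inv = false) (hcx : zpt c = x) (ha : c.a ∈ L)
    (hv : dirR R (c.to (pick (U l))) ∈ zinf k) : Lat L f.degree ‖c.ρ‖ := by
  by_contra hlat
  have hG : ∀ j, ∃ c : Chart K, c.inv = false ∧ zpt c = f.map^[j] x ∧ c.a ∈ L ∧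
      ¬ Lat L f.degree ‖c.ρ‖ ∧ dirR R (c.to (pick (U (l + j)))) ∈ zinf k := by
    intro j
    induction j with
    | zero => exact ⟨c, hc, hcx, ha, hlat, hv⟩
    | succ j ih =>
      obtain ⟨c, h1, h2, h3, h4, h5⟩ := ih
      obtain ⟨c', g1, g2, g3, g4, g5⟩ :=
        step_chart R (by omega) hP hQ (D.reg (l + j)) (D.mem_bd hx j) h1 h2 h3 h4 h5
      refine ⟨c', g1, ?_, g3, g4, ?_⟩
      · rw [Function.iterate_succ_apply']
        exact g2
      · rw [← add_assoc, D.succ]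
        exact g5
  choose e h1 h2 h3 h4 h5 using hG
  have hx_per : ∀ j, f.map^[j % P] x = f.map^[j] x := fun j =>
    per_mod (c := fun j => f.map^[j] x) (fun j => D.iter_per hx j) j
  have hU_per : ∀ j, U (l + j % P) = U (l + j) := fun j =>
    per_mod (c := fun j => U (l + j)) (fun j => by rw [← add_assoc, D.per]) j
  refine julia_seq R hd D.pos (c := fun j => e (j % P)) (fun j => ?_) (fun j => ?_)
    (fun j => ?_) (B := fun _ => zinf k) (fun j => rfl) (fun j => ?_) (fun j h T hg => ?_)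
  · change e ((j + P) % P) = e (j % P)
    rw [Nat.add_mod_right]
  · change f.map (zpt (e (j % P))) = zpt (e ((j + 1) % P))
    rw [h2, h2, hx_per, hx_per, Function.iterate_succ_apply']
  · change zpt (e (j % P)) ∉ fatou f
    rw [h2, hx_per]
    exact D.notMem_fatou (D.mem_bd hx j)
  · exact (Set.finite_singleton _).insert _
  · change GoodRed R ((toRM f).cj (e (j % P)) (e ((j + 1) % P))) h T at hg
    have g5 := h5 (j % P)
    rw [hU_per] at g5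
    obtain ⟨k1, k2, k3, -, -⟩ := good_facts R (by omega) hP hQ (D.reg (l + j)) (D.mem_bd hx j)
      (h1 (j % P)) (by rw [h2, hx_per]) (h3 _) (h4 _) g5 (h1 ((j + 1) % P))
      (by rw [h2, hx_per, Function.iterate_succ_apply']) (h3 _) hg
    exact ⟨k1, k2, k3⟩

end DV97
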