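import Pool.Agent.FS16.NRes

/-!
# The residue field, in every residue characteristic
-/

open Polynomial

noncomputable section

namespace DV97

open FS16

universe u

/-- the residue field exists and is algebraically closed (any residue characteristic) -/
theorem exists_residue_gen (K : Type u) [NontriviallyNormedField K] [IsUltrametricDist K]
    [IsAlgClosed K] :
    ∃ (k : Type u) (_ : Field k) (_ : IsAlgClosed k), Nonempty (Residue K k) := by
  classical
  have hzero : ∀ x : ballR K, IsLocalRing.residue (ballR K) x = 0 ↔ ‖(x : K)‖ < 1 := by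
    intro x
    rw [IsLocalRing.residue_eq_zero_iff, IsLocalRing.mem_maximalIdeal, mem_nonunits_iff,
      isUnit_ballR]
    constructor
    · intro h
      exact lt_of_le_of_ne x.2 h
    · intro h
      exact h.ne
  refine ⟨IsLocalRing.ResidueField (ballR K), inferInstance, ?_, ⟨{
    red := fun x => if h : ‖x‖ ≤ 1 then IsLocalRing.residue (ballR K) ⟨x, h⟩ else 0
    add := ?_
    mul := ?_
    one := ?_
    zero_iff := ?_
    surj := ?_ }⟩⟩
  · apply IsAlgClosed.of_exists_root
    intro p hp hirr
    have hl : p ∈ Polynomial.lifts (IsLocalRing.residue (ballR K)) := by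
      rw [Polynomial.mem_lifts]
      exact Polynomial.map_surjective _ IsLocalRing.residue_surjective p
    obtain ⟨q, hq1, hq2, hq3⟩ := Polynomial.lifts_and_natDegree_eq_and_monic hl hp
    have hdeg : (q.map (algebraMap (ballR K) K)).degree ≠ 0 := by
      rw [hq3.degree_map, Polynomial.degree_eq_natDegree hq3.ne_zero, hq2]
      have := hirr.natDegree_pos
      exact_mod_cast this.ne'
    obtain ⟨z, hz⟩ := IsAlgClosed.exists_root _ hdeg
    have hint : IsIntegral (ballR K) z := by
      refine ⟨q, hq3, ?_⟩
      rw [← Polynomial.eval_map]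
      exact hz
    obtain ⟨y, hy⟩ := IsIntegrallyClosed.isIntegral_iff.1 hint
    refine ⟨IsLocalRing.residue (ballR K) y, ?_⟩
    rw [← hq1, Polynomial.eval_map, Polynomial.eval₂_at_apply]
    have h0 : q.eval y = 0 := by
      have h1 : algebraMap (ballR K) K (q.eval y) = 0 := by
        rw [← Polynomial.eval₂_at_apply, hy, ← Polynomial.eval_map]
        exact hz
      exact (FaithfulSMul.algebraMap_eq_zero_iff (ballR K) K).1 h1
    rw [h0, map_zero]
  · intro x y hx hy
    have hxy : ‖x + y‖ ≤ 1 := (IsUltrametricDist.norm_add_le_max x y).trans (max_le hx hy)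
    rw [dif_pos hx, dif_pos hy, dif_pos hxy, ← map_add]
    rfl
  · intro x y hx hy
    have hxy : ‖x * y‖ ≤ 1 := by
      rw [norm_mul]
      exact mul_le_one₀ hx (norm_nonneg _) hy
    rw [dif_pos hx, dif_pos hy, dif_pos hxy, ← map_mul]
    rfl
  · have h1 : ‖(1 : K)‖ ≤ 1 := by rw [norm_one]
    rw [dif_pos h1, ← map_one (IsLocalRing.residue (ballR K))]
    rfl
  · intro x hx
    rw [dif_pos hx, hzero]
  · intro a
    obtain ⟨x, rfl⟩ := IsLocalRing.residue_surjective a
    refine ⟨x, x.2, ?_⟩
    have hx : ‖(x : K)‖ ≤ 1 := x.2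
    rw [dif_pos hx]


end DV97
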