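import Pool.Agent.DV97.Loc
import Pool.Agent.DV97.Res

/-!
# Rational maps over discretely valued fields have finitely many cycles of components with holes
-/

open Polynomial

noncomputable section

namespace DV97

open Pool.Agent.FIC FS16 FS31

universe u

variable {K : Type u} [NontriviallyNormedField K]

/-- a root of a polynomial with algebraic coefficients is algebraic -/
theorem root_alg {F : Subfield K} {g : K[X]} (hg : g ≠ 0) (hco : ∀ i, IsAlgebraic F (g.coeff i))
    {a : K} (ha : g.eval a = 0) : IsAlgebraic F a := by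
  have h1 : g ∈ Polynomial.lifts (algebraMap (algebraicClosure F K) K) := by
    rw [Polynomial.lifts_iff_coeff_lifts]
    intro n
    exact ⟨⟨_, mem_algebraicClosure_iff.2 (hco n)⟩, rfl⟩
  rw [Polynomial.mem_lifts] at h1
  obtain ⟨g₀, rfl⟩ := h1
  have h2 : IsAlgebraic (algebraicClosure F K) a := by
    refine ⟨g₀, ?_, ?_⟩
    · rintro rfl
      exact hg (Polynomial.map_zero _)
    · rw [aeval_def, ← eval_map]
      exact ha
  exact h2.restrictScalars F

variable [IsUltrametricDist K] [IsAlgClosed K]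

theorem fib_finite (f : RatMap K) (hd : 1 ≤ f.degree) (y : OnePoint K) :
    {z | (toRM f).map z = y}.Finite := by
  classical
  refine ((toRM f).fibM y).toFinset.finite_toSet.subset fun z hz => ?_
  rw [Finset.mem_coe, Multiset.mem_toFinset]
  exact ((toRM f).mem_fibM hd y z).2 hz

theorem ss_finite (f : RatMap K) (hd : 1 ≤ f.degree) (y₀ y₁ : OnePoint K) :
    (SS f y₀ y₁).Finite := by
  have h2 : ∀ y, {z | (toRM f).map ((toRM f).map z) = y}.Finite := by
    intro y
    refine ((fib_finite f hd y).biUnion fun w _ => fib_finite f hd w).subset fun z hz => ?_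
    exact Set.mem_biUnion (x := (toRM f).map z) hz rfl
  refine ((fib_finite f hd y₀).union ((fib_finite f hd y₁).union
    ((h2 y₀).union (h2 y₁)))).subset ?_
  rintro z (h | h | h | h)
  · exact Or.inl h
  · exact Or.inr (Or.inl h)
  · exact Or.inr (Or.inr (Or.inl h))
  · exact Or.inr (Or.inr (Or.inr h))

theorem alg_fib {F : Subfield K} {f : RatMap K} (hd : 1 ≤ f.degree)
    (hP : ∀ i, IsAlgebraic F (f.P.coeff i)) (hQ : ∀ i, IsAlgebraic F (f.Q.coeff i))
    {b : OnePoint K} (hb : ∀ β : K, b = (β : OnePoint K) → IsAlgebraic F β) {a : K}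
    (h : (toRM f).map (a : OnePoint K) = b) : IsAlgebraic F a := by
  have hQ0 : f.Q ≠ 0 := (toRM f).q_ne_zero hd
  cases b using OnePoint.rec with
  | infty =>
    have h1 : f.Q.eval a = 0 := by
      by_contra hcon
      rw [(toRM f).map_coe hcon] at h
      exact OnePoint.coe_ne_infty _ h
    exact root_alg hQ0 hQ h1
  | coe β =>
    obtain ⟨h1, h2⟩ := (toRM f).map_eq_coe h
    have h3 : (f.P - C β * f.Q).eval a = 0 := by
      change f.P.eval a / f.Q.eval a = β at h2
      change f.Q.eval a ≠ 0 at h1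
      rw [div_eq_iff h1] at h2
      rw [eval_sub, eval_mul, eval_C, h2, sub_self]
    refine root_alg (g := f.P - C β * f.Q) ?_ (fun i => ?_) h3
    · intro h0
      have h4 : f.P = C β * f.Q := sub_eq_zero.1 h0
      have h5 : IsUnit f.Q := by
        have h6 := f.coprime
        rw [h4] at h6
        exact (isCoprime_self.1 h6.of_mul_left_right)
      have h7 := natDegree_eq_zero_of_isUnit h5
      have h8 : f.P.natDegree = 0 := by
        rw [h4]
        have := natDegree_C_mul_le β f.Q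
        omega
      unfold RatMap.degree at hd
      omega
    · rw [coeff_sub, coeff_C_mul]
      exact (hP i).sub ((hb β rfl).mul (hQ i))

theorem finite_of_disc {f : RatMap K} (hf : 2 ≤ f.degree) {F : Subfield K} (hF : IsDisc F)
    (hP : ∀ i, IsAlgebraic F (f.P.coeff i)) (hQ : ∀ i, IsAlgebraic F (f.Q.coeff i)) :
    (multiCycles f).Finite := by
  classical
  have hd : 1 ≤ f.degree := by omega
  obtain ⟨k, i1, i2, ⟨R⟩⟩ := exists_residue_gen K
  -- the finite set of points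
  obtain ⟨S, hSdef⟩ : ∃ S : Set (OnePoint K),
      S = SS f (((0 : K) : OnePoint K)) OnePoint.infty := ⟨_, rfl⟩
  have hSfin : S.Finite := hSdef ▸ ss_finite f hd _ _
  have hSalg : ∀ a : K, (a : OnePoint K) ∈ S → IsAlgebraic F a := by
    intro a ha
    have h0 : ∀ β : K, ((0 : K) : OnePoint K) = (β : OnePoint K) → IsAlgebraic F β := by
      intro β hβ
      rw [← OnePoint.coe_injective hβ]
      exact isAlgebraic_zero
    have hinf : ∀ β : K, (OnePoint.infty : OnePoint K) = (β : OnePoint K) → IsAlgebraic F β :=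
      fun β hβ => absurd hβ (OnePoint.infty_ne_coe β)
    rw [hSdef] at ha
    rcases ha with h | h | h | h
    · exact alg_fib hd hP hQ h0 h
    · exact alg_fib hd hP hQ hinf h
    · exact alg_fib hd hP hQ (b := (toRM f).map (a : OnePoint K))
        (fun β hβ => alg_fib hd hP hQ h0 (hβ ▸ h)) rfl
    · exact alg_fib hd hP hQ (b := (toRM f).map (a : OnePoint K))
        (fun β hβ => alg_fib hd hP hQ hinf (hβ ▸ h)) rfl
  have hAfin : {a : K | (a : OnePoint K) ∈ S}.Finite :=
    hSfin.preimage (fun a _ b _ h => OnePoint.coe_injective h)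
  -- the field `L`
  obtain ⟨L, hAL, hFL, N, c₁, hN, hc₁, hL⟩ := exists_subfield hF
    (A := {a : K | (a : OnePoint K) ∈ S} ∪ (↑(f.P.coeffs) ∪ ↑(f.Q.coeffs)))
    (hAfin.union ((Finset.finite_toSet _).union (Finset.finite_toSet _))) (by
      rintro a (ha | ha | ha)
      · exact hSalg a ha
      · rw [Finset.mem_coe, mem_coeffs_iff] at ha
        obtain ⟨n, -, rfl⟩ := ha
        exact hP n
      · rw [Finset.mem_coe, mem_coeffs_iff] at ha
        obtain ⟨n, -, rfl⟩ := ha
        exact hQ n)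
  have hover : ∀ g : K[X], ↑(g.coeffs) ⊆ (L : Set K) → Over L g := by
    intro g hg i
    by_cases h0 : g.coeff i = 0
    · rw [h0]
      exact L.zero_mem
    · exact hg (coeff_mem_coeffs h0)
  have hPL : Over L f.P := hover _ fun a ha => hAL (Or.inr (Or.inl ha))
  have hQL : Over L f.Q := hover _ fun a ha => hAL (Or.inr (Or.inr ha))
  -- bounds for the radii
  obtain ⟨δ₁, hδ₁, hδ₁'⟩ : ∃ δ₁ : ℝ, 0 < δ₁ ∧ ∀ a b : K, (a : OnePoint K) ∈ S →
      (b : OnePoint K) ∈ S → a ≠ b → δ₁ ≤ ‖a - b‖ := by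
    have hfin : (insert (1 : ℝ) ((fun p : K × K => ‖p.1 - p.2‖) ''
        (({a : K | (a : OnePoint K) ∈ S} ×ˢ {a : K | (a : OnePoint K) ∈ S}) ∩
          {p | p.1 ≠ p.2}))).Finite := (((hAfin.prod hAfin).inter_of_left _).image _).insert _
    obtain ⟨δ, hδ, hmin⟩ := Set.exists_min_image _ id hfin ⟨1, Or.inl rfl⟩
    refine ⟨δ, ?_, fun a b ha hb hab => hmin _ (Or.inr ⟨(a, b), ⟨⟨ha, hb⟩, hab⟩, rfl⟩)⟩
    rcases hδ with rfl | ⟨⟨a, b⟩, ⟨-, hab⟩, rfl⟩
    · exact one_pos
    · exact norm_pos_iff.2 (sub_ne_zero.2 hab)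
  obtain ⟨δ₂, hδ₂⟩ : ∃ δ₂ : ℝ, ∀ a b : K, (a : OnePoint K) ∈ S → (b : OnePoint K) ∈ S →
      ‖a - b‖ ≤ δ₂ := by
    have hfin : (insert (1 : ℝ) ((fun p : K × K => ‖p.1 - p.2‖) ''
        ({a : K | (a : OnePoint K) ∈ S} ×ˢ {a : K | (a : OnePoint K) ∈ S}))).Finite :=
      ((hAfin.prod hAfin).image _).insert _
    obtain ⟨δ, -, hmax⟩ := Set.exists_max_image _ id hfin ⟨1, Or.inl rfl⟩
    exact ⟨δ, fun a b ha hb => hmax _ (Or.inr ⟨(a, b), ⟨ha, hb⟩, rfl⟩)⟩
  have hRad := finite_lat hN hc₁ hL f.degree (δ₂ := δ₂) hδ₁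
  -- the covering by finitely many sets with at most one element
  let Ct : K × ℝ × OnePoint K → Set (Set (Set (BerkP K))) := fun t =>
    {C | C ∈ multiCycles f ∧ ∃ W ∈ C, ∃ c : Chart K, c.a = t.1 ∧ ‖c.ρ‖ = t.2.1 ∧ zpt c ∈ bd W ∧
      dirR R (c.to t.2.2) = dirR R (c.to (pick W))}
  have hsub : ∀ t, (Ct t).Subsingleton := by
    rintro ⟨a, r, w⟩ C ⟨hC, W, hW, c, hca, hcr, hcW, hcw⟩ C' ⟨hC', W', hW', c', hca', hcr', hcW', hcw'⟩
    obtain ⟨hI, hH⟩ := hC.2 W hW
    obtain ⟨hI', hH'⟩ := hC'.2 W' hW'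
    have hsame : SamePt c c' := by
      refine ⟨hcr.trans hcr'.symm, ?_⟩
      rw [hca, hca', sub_self, norm_zero]
      exact norm_nonneg _
    have hz : zpt c = zpt c' := (zpt_eq_iff c c').2 hsame
    obtain ⟨θ, hθ⟩ := exists_theta R hsame
    have h1 : dirR R (c.to (pick W)) = dirR R (c.to (pick W')) := by
      rw [← hcw]
      apply θ.injective
      rw [← hθ, ← hθ]
      exact hcw'
    have hp : toP (pick W) ∈ W :=
      pick_mem (isOpen_of_hasHoles R hH) (nonempty_comp hI.1)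
    have hp' : toP (pick W') ∈ W' :=
      pick_mem (isOpen_of_hasHoles R hH') (nonempty_comp hI'.1)
    have h2 := inter_of_dir R hH hH' hp hp' (c := c) hcW (by rw [hz]; exact hcW') h1
    have h3 := inter_eq hI.1 hI'.1 h2
    rw [cycle_eq_of_mem hC hW, cycle_eq_of_mem hC' hW', h3]
  refine (((hAfin.prod (hRad.prod hSfin)).biUnion (t := Ct) fun t _ =>
    (hsub t).finite)).subset ?_
  intro C hC
  obtain ⟨U, P, D, hUC⟩ := exists_cyc R hd hC
  obtain ⟨l, x, hx, x', hx', hne, hr, hr'⟩ := D.exists_rich R hf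
    (y₀ := ((0 : K) : OnePoint K)) (y₁ := OnePoint.infty) (OnePoint.coe_ne_infty _)
  rw [← hSdef] at hr hr'
  obtain ⟨c, hc, hcx, hcS, hcv, ⟨a, b, ha, hb, hab, hr1⟩, ⟨a', b', ha', hb', hr2⟩, w, hwS, hw⟩ :=
    loc_chart R (D.reg l).hol ((D.reg l).pick_mem R) hx hx' hne hr hr'
  have hlat := lat_of_bd R hf hPL hQL D hx hc hcx (hAL (Or.inl hcS)) hcv
  refine Set.mem_biUnion (x := ((c.a, ‖c.ρ‖, w) : K × ℝ × OnePoint K)) ⟨hcS, ⟨?_, ?_, hlat⟩, hwS⟩ ?_
  · exact (hδ₁' a b ha hb hab).trans hr1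
  · exact hr2.trans (hδ₂ a' b' ha' hb')
  · exact ⟨hC, U l, hUC l, c, rfl, rfl, by rw [hcx]; exact hx, hw⟩

end DV97
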