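import Pool.Agent.FS31.FamMk

/-!
# Periodic sequences of type II points outside of the Fatou set

`julia_seq`: if all reductions along a periodic sequence of type II points have degree one and all directions
of positive surplus are in a finite family of directions which is mapped into itself, then the points
are in the Fatou set.
-/

open Polynomial

noncomputable section

namespace DV97

open Pool.Agent.FIC FS16 FS31

universe u

variable {K k : Type u} [NontriviallyNormedField K] [IsUltrametricDist K] [IsAlgClosed K] [Field k]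
  [IsAlgClosed k]

theorem per_mod {α : Type*} {c : ℕ → α} {P : ℕ} (hc : ∀ j, c (j + P) = c j) (j : ℕ) :
    c (j % P) = c j := by
  have h : ∀ m j, c (j + P * m) = c j := by
    intro m
    induction m with
    | zero => intro j; rfl
    | succ m ih => intro j; rw [Nat.mul_succ, ← add_assoc, hc, ih]
  conv_rhs => rw [← Nat.mod_add_div j P]
  rw [h]

theorem julia_seq (R : Residue K k) {f : RatMap K} (hd : 2 ≤ f.degree) {P : ℕ} (hP : 1 ≤ P)
    {c : ℕ → Chart K} (hc : ∀ j, c (j + P) = c j) (hz : ∀ j, f.map (zpt (c j)) = zpt (c (j + 1)))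
    (hJ : ∀ j, zpt (c j) ∉ fatou f) {B : ℕ → Set (OnePoint k)} (hB : ∀ j, B (j + P) = B j)
    (hBfin : ∀ j, (B j).Finite)
    (hT : ∀ (j : ℕ) (h : k[X]) (T : RM k), GoodRed R ((toRM f).cj (c j) (c (j + 1))) h T →
      T.deg = 1 ∧ (∀ u, spl ((toRM f).cj (c j) (c (j + 1))) h T u ≠ 0 → u ∈ B j) ∧
        ∀ u ∈ B j, T.map u ∈ B (j + 1)) : False := by
  have : NeZero P := ⟨by omega⟩
  let s : Equiv.Perm (ZMod P) := Equiv.addRight 1
  have hs : ∀ i, s i = i + 1 := fun i => rfl
  have hsit : ∀ (n : ℕ) (i : ZMod P), s^[n] i = i + n := by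
    intro n
    induction n with
    | zero => intro i; simp
    | succ n ih =>
      intro i
      rw [Function.iterate_succ_apply', ih, hs, Nat.cast_succ, add_assoc]
  have hval : ∀ {α : Type u} {c : ℕ → α}, (∀ j, c (j + P) = c j) → ∀ i : ZMod P,
      c (s i).val = c (i.val + 1) := by
    intro α c hc i
    rw [hs, ZMod.val_add, ZMod.val_one_eq_one_mod, Nat.add_mod_mod, per_mod hc]
  let c₀ : ZMod P → Chart K := fun i => c i.val
  have hcs : ∀ i, c₀ (s i) = c (i.val + 1) := fun i => hval hc i
  have hex : ∀ i : ZMod P, ∃ (h : k[X]) (T : RM k), GoodRed R ((toRM f).cj (c₀ i) (c₀ (s i))) h T := by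
    intro i
    apply exists_goodRed R f
    rw [hcs]
    exact hz _
  choose h T hg using hex
  have hprop := fun i : ZMod P => hT i.val (h i) (T i) (by
    have := hg i
    rwa [hcs] at this)
  obtain ⟨n, w, hw1, hw2, hw3⟩ := exists_infinite_orbit R hd s c₀ (fun i => hJ _) T h hg 0
    (fun n => (hprop _).1)
  have hBs : ∀ i : ZMod P, B (s i).val = B (i.val + 1) := fun i => hval hB i
  have hmem : ∀ l, w l ∈ B ((s^[n + l] 0 : ZMod P).val) := by
    intro l
    induction l with
    | zero =>
      refine (hprop _).2.1 _ ?_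
      have := hw1
      rwa [hcs] at this
    | succ l ih =>
      rw [← hw2 l]
      have h1 := (hprop _).2.2 _ ih
      rw [← hBs] at h1
      have h2 : s^[n + (l + 1)] 0 = s (s^[n + l] 0) := by
        rw [← Function.iterate_succ_apply' s]
        rfl
      rw [h2]
      exact h1
  have hsP : ∀ m : ℕ, s^[n + P * m] 0 = s^[n] 0 := by
    intro m
    rw [hsit, hsit, Nat.cast_add, Nat.cast_mul, ZMod.natCast_self, zero_mul, add_zero]
  have hinj : Function.Injective fun m : ℕ => w (P * m) := by
    intro a b hab
    have h1 : s^[P * a] 0 = s^[P * b] 0 := by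
      rw [hsit, hsit, Nat.cast_mul, Nat.cast_mul, ZMod.natCast_self, zero_mul, zero_mul]
    exact Nat.eq_of_mul_eq_mul_left (by omega) (hw3 (P * a) (P * b) h1 hab)
  have hfin := hBfin ((s^[n] 0 : ZMod P).val)
  exact Set.infinite_of_injective_forall_mem hinj (fun m => by
    have h1 := hmem (P * m)
    rw [hsP] at h1
    exact h1) hfin

end DV97
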